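import Pool.Agent.H116R3.JM.Core

set_option autoImplicit false

/-!
# Sequences for the abstract instances
-/

namespace Pool.Agent.H116R3.JM

open Finset Pool.Agent.H688R2.JIT

theorem copies_succ {n : ℕ} (S : ℕ → Fin n) (i : Fin n) (t : ℕ) :
    copies S i (t + 1) = copies S i t + if S (t + 1) = i then 1 else 0 := by
  unfold copies
  have h1 : Finset.Icc 1 (t + 1) = insert (t + 1) (Finset.Icc 1 t) := by
    ext x
    simp only [mem_Icc, mem_insert]
    omega
  rw [h1, Finset.filter_insert]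
  split_ifs with h2
  · rw [Finset.card_insert_of_notMem (by simp)]
  · rfl

theorem copies_zero {n : ℕ} (S : ℕ → Fin n) (i : Fin n) : copies S i 0 = 0 := by
  simp [copies]

theorem copies_mono {n : ℕ} (S : ℕ → Fin n) (i : Fin n) {s t : ℕ} (h : s ≤ t) :
    copies S i s ≤ copies S i t := by
  induction t, h using Nat.le_induction with
  | base => exact le_rfl
  | succ t _ ih =>
    rw [copies_succ]
    omega

theorem sum_copies {n : ℕ} (S : ℕ → Fin n) (t : ℕ) : ∑ i, copies S i t = t := by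
  induction t with
  | zero => simp [copies_zero]
  | succ t ih =>
    simp only [copies_succ]
    rw [Finset.sum_add_distrib, ih]
    simp

theorem cnt_succ {N : ℕ} (σ : ℕ → Option (Fin N)) (i : Fin N) (t : ℕ) :
    cnt σ i (t + 1) = cnt σ i t + if σ (t + 1) = some i then 1 else 0 := by
  unfold cnt
  have h1 : Finset.Icc 1 (t + 1) = insert (t + 1) (Finset.Icc 1 t) := by
    ext x
    simp only [mem_Icc, mem_insert]
    omega
  rw [h1, Finset.filter_insert]
  split_ifs with h2
  · rw [Finset.card_insert_of_notMem (by simp)]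
  · rfl

theorem sum_some {N : ℕ} (o : Option (Fin N)) :
    ∑ i, (if o = some i then 1 else 0) = if o ≠ none then 1 else 0 := by
  cases o with
  | none => simp
  | some a => simp

/-- The sequence of a schedule. -/
def seqOf {N : ℕ} (σ : ℕ → Option (Fin N)) (k1 : ℕ) (k : ℕ) : Fin (N + 2) :=
  match σ k with
  | some i => i.succ.succ
  | none => if k = k1 then Fin.succ 0 else 0

theorem seqOf_gadget {N : ℕ} (σ : ℕ → Option (Fin N)) (k1 k : ℕ) (i : Fin N) :
    seqOf σ k1 k = i.succ.succ ↔ σ k = some i := by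
  unfold seqOf
  cases h : σ k with
  | some a => simp
  | none =>
    simp only [reduceCtorEq, iff_false]
    split_ifs
    · intro h2
      exact absurd (Fin.succ_injective _ h2).symm (Fin.succ_ne_zero i)
    · exact (Fin.succ_ne_zero _).symm

theorem seqOf_one {N : ℕ} (σ : ℕ → Option (Fin N)) (k1 k : ℕ) (h1 : σ k1 = none) :
    seqOf σ k1 k = Fin.succ 0 ↔ k = k1 := by
  unfold seqOf
  cases h : σ k with
  | some a =>
    constructor
    · intro h2
      exact absurd (Fin.succ_injective _ h2) (Fin.succ_ne_zero a)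
    · rintro rfl
      rw [h1] at h
      simp at h
  | none =>
    simp only
    split_ifs with h2
    · simp [h2]
    · simp only [h2, iff_false]
      exact (Fin.succ_ne_zero _).symm

theorem copies_gadget {N : ℕ} (σ : ℕ → Option (Fin N)) (k1 t : ℕ) (i : Fin N) :
    copies (seqOf σ k1) i.succ.succ t = cnt σ i t := by
  unfold copies cnt
  congr 1
  apply Finset.filter_congr
  intro x _
  exact seqOf_gadget σ k1 x i

theorem copies_one {N : ℕ} (σ : ℕ → Option (Fin N)) (k1 t : ℕ) (h1 : σ k1 = none) (hk : 1 ≤ k1) :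
    copies (seqOf σ k1) (Fin.succ 0) t = if k1 ≤ t then 1 else 0 := by
  induction t with
  | zero => simp [copies_zero, Nat.not_le.2 hk]
  | succ t ih =>
    rw [copies_succ, ih]
    simp only [seqOf_one σ k1 _ h1]
    split_ifs <;> omega

namespace Par

variable (X : Par)

theorem ratio_one : ((X.dem (Fin.succ 0) : ℕ) : ℝ) / ((total X.dem : ℕ) : ℝ) = 1 / (X.D : ℝ) := by
  rw [X.total_dem, dem_one]
  simp

theorem rB : (X.D : ℝ) = X.P * X.B := by exact_mod_cast X.D_B

theorem rP : (2 : ℝ) ≤ X.P := by exact_mod_cast X.hP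

theorem rBp : (1 : ℝ) ≤ X.B := by exact_mod_cast X.B_pos

theorem ratio_zero : ((X.dem 0 : ℕ) : ℝ) / ((total X.dem : ℕ) : ℝ) = 1 / (X.P : ℝ) - 1 / X.D := by
  rw [X.total_dem, dem_zero, Nat.cast_sub X.B_pos, Nat.cast_one, X.rB]
  have h1 := X.rP
  have h2 := X.rBp
  field_simp

/-- The special model is at position `k0` if the maximum deviation is at most `1`. -/
theorem special_of_dev {S : ℕ → Fin (X.N + 2)} (h : maxDev X.F X.dem S ≤ 1) :
    S X.k0 = Fin.succ 0 := by
  have hk := X.k0_ge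
  have hD := X.D_eq
  have hW := X.hW
  have h1 := le_maxDev h (Fin.succ 0) (k := X.k0) (by omega) (by rw [X.total_dem]; omega)
  have h2 := le_maxDev h (Fin.succ 0) (k := X.k0 - 1) (by omega) (by rw [X.total_dem]; omega)
  rw [X.ratio_one] at h1 h2
  have h1' := le_trans (le_max_right _ _) h1
  have h2' := le_trans (le_max_left _ _) h2
  change -((X.D : ℝ) / ((X.k0 : ℝ) - 1) * ((copies S (Fin.succ 0) X.k0 : ℝ) - X.k0 * (1 / X.D))) ≤ 1
    at h1'
  change (2 * (X.W : ℝ) + 2) * ((copies S (Fin.succ 0) (X.k0 - 1) : ℝ) - ((X.k0 - 1 : ℕ) : ℝ) *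
    (1 / X.D)) ≤ 1 at h2'
  rw [Nat.cast_sub (by omega), Nat.cast_one] at h2'
  have hkp := X.rk0p
  have hDp := X.rDp
  have e1 : copies S (Fin.succ 0) X.k0 ≠ 0 := by
    intro h0
    rw [h0, Nat.cast_zero, alg hDp, mul_zero, sub_zero, div_le_one hkp] at h1'
    linarith
  have e2 : copies S (Fin.succ 0) (X.k0 - 1) = 0 := by
    by_contra h0
    have h3 : (1 : ℝ) ≤ copies S (Fin.succ 0) (X.k0 - 1) := by
      exact_mod_cast Nat.one_le_iff_ne_zero.2 h0
    have h4 : (2 * (X.W : ℝ) + 2) * (1 - ((X.k0 : ℝ) - 1) * (1 / X.D)) ≤ 1 := by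
      refine le_trans (mul_le_mul_of_nonneg_left ?_ ?_) h2'
      · linarith
      · have := X.rW
        linarith
    have h5 : (2 * (X.W : ℝ) + 2) * (1 - ((X.k0 : ℝ) - 1) * (1 / X.D)) * X.D ≤ 1 * X.D :=
      mul_le_mul_of_nonneg_right h4 hDp.le
    have h6 : (2 * (X.W : ℝ) + 2) * (1 - ((X.k0 : ℝ) - 1) * (1 / X.D)) * X.D =
        (2 * (X.W : ℝ) + 2) * (X.D - (X.k0 - 1)) := by
      field_simp
    rw [h6, X.rD] at h5
    have := X.rk0
    have := X.rW
    nlinarith
  have e3 := copies_succ S (Fin.succ 0) (X.k0 - 1)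
  rw [show X.k0 - 1 + 1 = X.k0 by omega, e2] at e3
  by_contra hne
  rw [if_neg hne] at e3
  exact e1 e3

/-- The special model is not at position `k0` if the maximum deviation is at most `B2` and
`pen u = 0` for some `u`. -/
theorem special_ne_of_dev {S : ℕ → Fin (X.N + 2)} (h : maxDev X.F X.dem S ≤ X.B2)
    (hu : ∃ u, X.pen u = 0) : S X.k0 ≠ Fin.succ 0 := by
  obtain ⟨u0, hu0⟩ := hu
  have hR := X.hR
  have hP := X.hP
  -- a suitable time
  obtain ⟨u, hu1, hu2, hu3⟩ : ∃ u, X.R * (2 * X.W + 1) ≤ u ∧ u < X.B ∧ X.pen u = 0 := by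
    refine ⟨u0 % X.R + (2 * X.W + 1) * X.R, ?_, ?_, ?_⟩
    · rw [mul_comm]; omega
    · have := Nat.mod_lt u0 (show 0 < X.R by omega)
      unfold B
      nlinarith
    · rw [X.pen_mul]
      have := X.pen_mul (u0 / X.R) (u0 % X.R)
      rw [mul_comm, Nat.mod_add_div] at this
      rw [← this, hu0]
  have hPu : X.k0 ≤ X.P * u := by
    rw [X.k0_eq]
    exact Nat.mul_le_mul_left _ hu1
  have hPuD : X.P * u < X.D := by
    rw [X.D_B]
    exact Nat.mul_lt_mul_of_pos_left hu2 (by omega)
  have hk := X.k0_ge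
  -- the lower bounds
  have h1 : ∀ i : Fin X.N, X.low i (X.P * u) ≤ copies S i.succ.succ (X.P * u) := fun i =>
    X.low_of_dev le_rfl (le_maxDev h i.succ.succ (by omega) (by rw [X.total_dem]; omega))
  have h2 : (X.P - 1) * u + 1 ≤ ∑ i : Fin X.N, copies S i.succ.succ (X.P * u) := by
    have h3 := X.sum_low (X.P * u)
    rw [Nat.mul_div_cancel_left _ (by omega), hu3, add_zero] at h3
    rw [← h3]
    exact Finset.sum_le_sum fun i _ => h1 i
  -- the filler
  have h4 := le_maxDev h 0 (k := X.P * u) (by omega) (by rw [X.total_dem]; omega)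
  rw [X.ratio_zero] at h4
  have h4' := le_trans (le_max_right _ _) h4
  change -(X.B2 * ((copies S 0 (X.P * u) : ℝ) - ((X.P * u : ℕ) : ℝ) * (1 / X.P - 1 / X.D))) ≤ X.B2
    at h4'
  have hB2 := X.B2_ge
  have h5 : -((copies S 0 (X.P * u) : ℝ) - ((X.P * u : ℕ) : ℝ) * (1 / X.P - 1 / X.D)) ≤ 1 := by
    by_contra hcon
    push Not at hcon
    nlinarith
  have h6 : ((X.P * u : ℕ) : ℝ) * (1 / X.P - 1 / X.D) = u - ((X.P * u : ℕ) : ℝ) / X.D := by
    have := X.rP
    push_cast
    field_simp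
  have h7 : ((X.P * u : ℕ) : ℝ) / X.D < 1 := by
    rw [div_lt_one X.rDp]
    exact_mod_cast hPuD
  rw [h6] at h5
  have h8 : (u : ℝ) < copies S 0 (X.P * u) + 2 := by linarith
  have h9 : u < copies S 0 (X.P * u) + 2 := by exact_mod_cast h8
  -- the total
  have h10 := sum_copies S (X.P * u)
  rw [Fin.sum_univ_succ, Fin.sum_univ_succ] at h10
  have h11 : copies S (Fin.succ 0) (X.P * u) = 0 := by
    have e : X.P * u = (X.P - 1) * u + u := by
      obtain ⟨p, hp⟩ : ∃ p, X.P = p + 1 := ⟨X.P - 1, by omega⟩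
      rw [hp]
      simp only [Nat.add_sub_cancel]
      ring
    omega
  intro hS
  have h12 := copies_mono S (Fin.succ 0) hPu
  have h13 := copies_succ S (Fin.succ 0) (X.k0 - 1)
  rw [show X.k0 - 1 + 1 = X.k0 by omega, if_pos hS] at h13
  omega

/-- Existence of sequences. -/
theorem exists_seq (c : ℕ → ℕ) (k1 : ℕ) (b : ℝ) (hb : 1 ≤ b) (hk1 : 1 ≤ k1) (hk1D : k1 ≤ X.D)
    (hc0 : c 0 = 0) (hstep : ∀ t < X.D, c (t + 1) = c t ∨ c (t + 1) = c t + 1)
    (hcD : c X.D = (X.P - 1) * X.B) (hle : ∀ t ≤ X.D, ∑ i, X.low i t ≤ c t)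
    (hck : c k1 = c (k1 - 1))
    (hs : ∀ t, 1 ≤ t → t ≤ X.D → X.F (Fin.succ 0) (((if k1 ≤ t then 1 else 0 : ℕ) : ℝ) -
      t * (1 / X.D)) ≤ b)
    (hf : ∀ t, 1 ≤ t → t ≤ X.D → X.B2 * ((c t : ℝ) + ((if k1 ≤ t then 1 else 0 : ℕ) : ℝ) - t +
      t * (1 / X.P - 1 / X.D)) ≤ b) :
    ∃ S : ℕ → Fin (X.N + 2), IsSeq X.dem S ∧ maxDev X.F X.dem S ≤ b := by
  obtain ⟨σ, h1, h2, h3⟩ := exists_sched (fun i t => X.low i t) c (fun i => X.D / (X.P * X.Q i))
    (fun i t => X.low_mono i t) hc0 hstep (fun i => (X.low_D i).le) (X.sum_D.trans hcD.symm) hle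
  have hσ : σ k1 = none := by
    have := h1 (k1 - 1) (by omega)
    rw [show k1 - 1 + 1 = k1 by omega] at this
    by_contra hne
    have := this.1 hne
    omega
  have hsum : ∀ t ≤ X.D, ∑ i, cnt σ i t = c t := by
    intro t
    induction t with
    | zero =>
      intro _
      rw [hc0]
      simp [cnt]
    | succ t ih =>
      intro ht
      simp only [cnt_succ]
      rw [Finset.sum_add_distrib, ih (by omega), sum_some]
      have h4 := h1 t (by omega)
      rcases hstep t (by omega) with h5 | h5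
      · rw [if_neg (by rw [h4]; omega), h5, add_zero]
      · rw [if_pos (h4.2 h5), h5]
  have hone := fun t => copies_one σ k1 t hσ hk1
  have hzero : ∀ t ≤ X.D, copies (seqOf σ k1) 0 t + (if k1 ≤ t then 1 else 0) + c t = t := by
    intro t ht
    have h4 := sum_copies (seqOf σ k1) t
    rw [Fin.sum_univ_succ, Fin.sum_univ_succ] at h4
    simp only [copies_gadget] at h4
    rw [hsum t ht, hone] at h4
    omega
  refine ⟨seqOf σ k1, ?_, ?_⟩
  · intro i
    rw [X.total_dem]
    refine Fin.cases ?_ (Fin.cases ?_ fun i => ?_) i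
    · have h4 := hzero X.D le_rfl
      rw [if_pos hk1D, hcD] at h4
      rw [dem_zero]
      have h5 := X.D_B
      have h6 := X.B_pos
      obtain ⟨p, hp⟩ : ∃ p, X.P = p + 1 := ⟨X.P - 1, by have := X.hP; omega⟩
      rw [hp] at h4 h5
      simp only [Nat.add_sub_cancel] at h4
      rw [add_mul, one_mul] at h5
      omega
    · rw [hone, if_pos hk1D, dem_one]
    · rw [copies_gadget, h3, dem_succ]
  · have hDp : 0 < X.D := by
      have := X.D_eq
      have := X.k0_ge
      omega
    refine maxDev_le (by omega) (by rw [X.total_dem]; exact hDp) ?_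
    intro i t ht1 htD
    rw [X.total_dem] at htD
    refine Fin.cases ?_ (Fin.cases ?_ fun i => ?_) i
    · rw [X.ratio_zero]
      have h4 := hzero t htD
      have h5 : (copies (seqOf σ k1) 0 t : ℝ) = t - c t - ((if k1 ≤ t then 1 else 0 : ℕ) : ℝ) := by
        have h6 : ((copies (seqOf σ k1) 0 t + (if k1 ≤ t then 1 else 0) + c t : ℕ) : ℝ) = t := by
          exact_mod_cast h4
        push_cast at h6 ⊢
        linarith
      refine max_le ?_ ?_
      · change 1 / (X.D : ℝ) * ((copies (seqOf σ k1) 0 t : ℝ) - t * (1 / X.P - 1 / X.D)) ≤ b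
        refine le_trans ?_ hb
        rw [div_mul_eq_mul_div, one_mul, div_le_one X.rDp]
        have h7 : (copies (seqOf σ k1) 0 t : ℝ) ≤ t := by
          have : copies (seqOf σ k1) 0 t ≤ t := by omega
          exact_mod_cast this
        have h8 : (t : ℝ) ≤ X.D := by exact_mod_cast htD
        have h9 : (0 : ℝ) ≤ 1 / X.P - 1 / X.D := by
          rw [← X.ratio_zero]
          positivity
        have h10 : (0 : ℝ) ≤ t * (1 / X.P - 1 / X.D) := mul_nonneg (Nat.cast_nonneg _) h9
        linarith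
      · change -(X.B2 * ((copies (seqOf σ k1) 0 t : ℝ) - t * (1 / X.P - 1 / X.D))) ≤ b
        have h6 := hf t ht1 htD
        rw [h5]
        have e : -(X.B2 * ((t : ℝ) - c t - ((if k1 ≤ t then 1 else 0 : ℕ) : ℝ) -
            t * (1 / X.P - 1 / X.D))) = X.B2 * ((c t : ℝ) + ((if k1 ≤ t then 1 else 0 : ℕ) : ℝ) - t +
            t * (1 / X.P - 1 / X.D)) := by ring
        rw [e]
        exact h6
    · rw [X.ratio_one, hone]
      exact hs t ht1 htD
    · refine le_trans ?_ hb
      have h5 : copies (seqOf σ k1) i.succ.succ t ≤ X.D := by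
        have h6 := Finset.single_le_sum (f := fun j => copies (seqOf σ k1) j t)
          (fun j _ => Nat.zero_le _) (mem_univ i.succ.succ)
        rw [sum_copies] at h6
        omega
      refine X.dev_of_low h5 ?_
      rw [copies_gadget]
      exact h2 t htD i

end Par

end Pool.Agent.H116R3.JM
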