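import Pool.Agent.NPC.Defs
import Pool.Agent.H688R2.JIT.Defs

set_option autoImplicit false

/-!
# Just-in-time sequencing, maximum deviation: definitions

`copies`, `total`, `IsSeq` and `Admissible` are those of `Pool.Agent.H688R2.JIT.Defs`.
-/

namespace Pool.Agent.H116R3.JM

open Pool.Agent.NPC Pool.Agent.H688R2.JIT

/-- The maximum deviation `G(S) = max_{i,k} F_i (x_{ik} - k r_i)`, `r_i = d_i / D`, where `i` runs
through all models and `k` through `1, …, D`. -/
noncomputable def maxDev {n : ℕ} (F : Fin n → ℝ → ℝ) (d : Fin n → ℕ) (S : ℕ → Fin n) : ℝ :=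
  ⨆ p : Fin n × {k : ℕ // k ∈ Finset.Icc 1 (total d)},
    F p.1 ((copies S p.1 p.2.1 : ℝ) - (p.2.1 : ℝ) * ((d p.1 : ℝ) / (total d : ℝ)))

/-- `S` is an optimal sequence for the maximum deviation problem. -/
def IsMaxOptimal {n : ℕ} (F : Fin n → ℝ → ℝ) (d : Fin n → ℕ) (S : ℕ → Fin n) : Prop :=
  IsSeq d S ∧ ∀ S' : ℕ → Fin n, IsSeq d S' → maxDev F d S ≤ maxDev F d S'

/-- An instance: a list with one entry `(d, (a, b), (a', b'))` for each model; `d` is the demand of
the model and its penalty is the function `x ↦ max ((a / b) x) (-(a' / b') x)`. -/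
abbrev Inst : Type := List (ℕ × (ℕ × ℕ) × (ℕ × ℕ))

/-- The instance has at least one model and all numbers in it are positive. -/
def Valid (I : Inst) : Prop :=
  I ≠ [] ∧ ∀ e ∈ I, 0 < e.1 ∧ 0 < e.2.1.1 ∧ 0 < e.2.1.2 ∧ 0 < e.2.2.1 ∧ 0 < e.2.2.2

/-- The demand vector of an instance. -/
def demand (I : Inst) (i : Fin I.length) : ℕ := (I.get i).1

/-- The penalties of an instance. -/
noncomputable def penalty (I : Inst) (i : Fin I.length) (x : ℝ) : ℝ :=
  max (((I.get i).2.1.1 : ℝ) / ((I.get i).2.1.2 : ℝ) * x)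
    (-(((I.get i).2.2.1 : ℝ) / ((I.get i).2.2.2 : ℝ) * x))

/-- The pair `(A, Q)` of functions on bit strings solves the maximum deviation problem in the
implicit form: for every instance `I` the string `A (bits I)` is a data structure from which, for
every position `k ∈ {1, …, D}`, the function `Q` computes the (number of the) model at the
position `k` of one fixed optimal sequence. -/
def SolvesMaxDev (A Q : List Bool → List Bool) : Prop :=
  ∀ I : Inst, Valid I → ∃ S : ℕ → Fin I.length, IsMaxOptimal (penalty I) (demand I) S ∧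
    ∀ k ∈ Finset.Icc 1 (total (demand I)), Q (bits (A (bits I), k)) = bits ((S k : Fin I.length) : ℕ)

theorem penalty_admissible {I : Inst} (hI : Valid I) (i : Fin I.length) :
    Admissible (penalty I i) := by
  obtain ⟨_, h1, h2, h3, h4⟩ := hI.2 (I.get i) (List.get_mem I i)
  have ha : (0 : ℝ) < ((I.get i).2.1.1 : ℝ) / ((I.get i).2.1.2 : ℝ) := by positivity
  have hb : (0 : ℝ) < ((I.get i).2.2.1 : ℝ) / ((I.get i).2.2.2 : ℝ) := by positivity
  unfold penalty
  generalize ((I.get i).2.1.1 : ℝ) / ((I.get i).2.1.2 : ℝ) = a at *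
  generalize ((I.get i).2.2.1 : ℝ) / ((I.get i).2.2.2 : ℝ) = b at *
  refine ⟨?_, by simp, ?_⟩
  · refine ConvexOn.sup ?_ ?_
    · refine ⟨convex_univ, fun x _ y _ s t _ _ _ => ?_⟩
      simp only [smul_eq_mul]
      linarith
    · refine ⟨convex_univ, fun x _ y _ s t _ _ _ => ?_⟩
      simp only [smul_eq_mul]
      linarith
  · intro x hx
    rcases lt_or_gt_of_ne hx with h | h
    · exact lt_max_of_lt_right (by nlinarith)
    · exact lt_max_of_lt_left (by positivity)

theorem le_maxDev {n : ℕ} {F : Fin n → ℝ → ℝ} {d : Fin n → ℕ} {S : ℕ → Fin n} {B : ℝ}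
    (h : maxDev F d S ≤ B) (i : Fin n) {k : ℕ} (h1 : 1 ≤ k) (h2 : k ≤ total d) :
    F i ((copies S i k : ℝ) - (k : ℝ) * ((d i : ℝ) / (total d : ℝ))) ≤ B := by
  refine le_trans ?_ h
  unfold maxDev
  exact le_ciSup (f := fun p : Fin n × {k : ℕ // k ∈ Finset.Icc 1 (total d)} =>
    F p.1 ((copies S p.1 p.2.1 : ℝ) - (p.2.1 : ℝ) * ((d p.1 : ℝ) / (total d : ℝ))))
    (Set.finite_range _).bddAbove ⟨i, ⟨k, Finset.mem_Icc.2 ⟨h1, h2⟩⟩⟩

theorem maxDev_le {n : ℕ} {F : Fin n → ℝ → ℝ} {d : Fin n → ℕ} {S : ℕ → Fin n} {B : ℝ}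
    (hn : 0 < n) (hd : 0 < total d)
    (h : ∀ i : Fin n, ∀ k, 1 ≤ k → k ≤ total d →
      F i ((copies S i k : ℝ) - (k : ℝ) * ((d i : ℝ) / (total d : ℝ))) ≤ B) :
    maxDev F d S ≤ B := by
  unfold maxDev
  haveI : Nonempty (Fin n × {k : ℕ // k ∈ Finset.Icc 1 (total d)}) :=
    ⟨(⟨0, hn⟩, ⟨1, Finset.mem_Icc.2 ⟨le_rfl, hd⟩⟩)⟩
  refine ciSup_le fun p => ?_
  have := Finset.mem_Icc.1 p.2.2
  exact h p.1 p.2.1 this.1 this.2

end Pool.Agent.H116R3.JM
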