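import Pool.Agent.H116R3.JM.Sched
import Pool.Agent.H116R3.JM.Defs

set_option autoImplicit false

/-!
# The abstract instances
-/

namespace Pool.Agent.H116R3.JM

open Finset Pool.Agent.H688R2.JIT

/-- The data of an instance: models `i` with a job due at the times `P (ν i + k Q i)`. -/
structure Par where
  P : ℕ
  R : ℕ
  N : ℕ
  Q : Fin N → ℕ
  ν : Fin N → ℕ
  pen : ℕ → ℕ
  hP : 2 ≤ P
  hR : 1 ≤ R
  hν1 : ∀ i, 1 ≤ ν i
  hνQ : ∀ i, ν i ≤ Q i
  hQR : ∀ i, Q i ∣ R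
  per : ∀ u, pen (u + R) = pen u
  key : ∀ u v, v < P → ∑ i, (P * u + v + (P * Q i - P * ν i)) / (P * Q i) + pen u = (P - 1) * u + 1

namespace Par

variable (X : Par)

def W : ℕ := X.P * X.R
def D : ℕ := X.W * (2 * X.W + 2)
def k0 : ℕ := X.W * (2 * X.W + 1)
/-- the number of blocks -/
def B : ℕ := X.R * (2 * X.W + 2)

theorem hW : 2 ≤ X.W := by
  have := X.hP
  have := X.hR
  unfold W
  nlinarith

theorem PW : X.P ≤ X.W := by
  have := X.hR
  unfold W
  nlinarith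

theorem D_eq : X.D = X.k0 + X.W := by
  unfold D k0
  ring

theorem D_B : X.D = X.P * X.B := by
  unfold D B W
  ring

theorem k0_eq : X.k0 = X.P * (X.R * (2 * X.W + 1)) := by
  unfold k0
  conv_lhs => rw [show X.W = X.P * X.R from rfl]
  rw [mul_assoc]
  rfl

theorem k0_ge : 10 ≤ X.k0 := by
  have := X.hW
  unfold k0
  nlinarith

theorem k0_W : 2 * X.W * X.W + X.W = X.k0 := by
  unfold k0
  ring

theorem k0_mod : X.k0 % X.P = 0 := by
  rw [X.k0_eq]
  exact Nat.mul_mod_right _ _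

/-- the number of jobs of model `i` due up to time `t` -/
def low (i : Fin X.N) (t : ℕ) : ℕ := (t + (X.P * X.Q i - X.P * X.ν i)) / (X.P * X.Q i)

theorem Qpos (i : Fin X.N) : 0 < X.Q i := lt_of_lt_of_le (X.hν1 i) (X.hνQ i)

theorem PQpos (i : Fin X.N) : 0 < X.P * X.Q i :=
  Nat.mul_pos (by have := X.hP; omega) (X.Qpos i)

theorem PνQ (i : Fin X.N) : X.P * X.ν i ≤ X.P * X.Q i := Nat.mul_le_mul_left _ (X.hνQ i)

theorem Pν2 (i : Fin X.N) : 2 ≤ X.P * X.ν i := by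
  have := X.hP
  have := X.hν1 i
  nlinarith

theorem PQW (i : Fin X.N) : X.P * X.Q i ∣ X.W := Nat.mul_dvd_mul_left _ (X.hQR i)

theorem PQ_le (i : Fin X.N) : X.P * X.Q i ≤ X.W :=
  Nat.le_of_dvd (by have := X.hW; omega) (X.PQW i)

theorem PQD (i : Fin X.N) : X.P * X.Q i ∣ X.D := (X.PQW i).trans (Dvd.intro _ rfl)

theorem low_mono (i : Fin X.N) (t : ℕ) : X.low i t ≤ X.low i (t + 1) := by
  unfold low
  exact Nat.div_le_div_right (by omega)

theorem low_le_iff (i : Fin X.N) (t x : ℕ) :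
    X.low i t ≤ x ↔ t < X.P * X.Q i * x + X.P * X.ν i := by
  unfold low
  rw [← Nat.lt_add_one_iff, Nat.div_lt_iff_lt_mul (X.PQpos i)]
  have := X.PνQ i
  have e : (x + 1) * (X.P * X.Q i) = X.P * X.Q i * x + X.P * X.Q i := by ring
  rw [e]
  omega

theorem low_zero (i : Fin X.N) : X.low i 0 = 0 := by
  have h := (X.low_le_iff i 0 0).2 (by have := X.Pν2 i; omega)
  omega

theorem low_D (i : Fin X.N) : X.low i X.D = X.D / (X.P * X.Q i) := by
  unfold low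
  obtain ⟨c, hc⟩ := X.PQD i
  have h1 := X.PνQ i
  have h2 := X.Pν2 i
  have h3 := X.PQpos i
  rw [hc, Nat.mul_add_div h3, Nat.mul_div_cancel_left _ h3,
    Nat.div_eq_of_lt (by omega), add_zero]

theorem pen_zero : X.pen 0 = 1 := by
  have h := X.key 0 0 (by have := X.hP; omega)
  have h2 : ∑ i, (X.P * 0 + 0 + (X.P * X.Q i - X.P * X.ν i)) / (X.P * X.Q i) = 0 := by
    refine Finset.sum_eq_zero fun i _ => ?_
    have := X.low_zero i
    unfold low at this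
    simpa using this
  rw [h2] at h
  omega

theorem pen_mul (m u : ℕ) : X.pen (u + m * X.R) = X.pen u := by
  induction m with
  | zero => simp
  | succ m ih =>
    rw [Nat.succ_mul, ← add_assoc, X.per, ih]

theorem sum_low (t : ℕ) : ∑ i, X.low i t + X.pen (t / X.P) = (X.P - 1) * (t / X.P) + 1 := by
  have h := X.key (t / X.P) (t % X.P) (Nat.mod_lt _ (by have := X.hP; omega))
  rw [Nat.div_add_mod] at h
  exact h

theorem B_pos : 1 ≤ X.B := by
  have := X.hR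
  have := X.hW
  unfold B
  nlinarith

theorem D_div : X.D / X.P = X.B := by
  rw [X.D_B, Nat.mul_div_cancel_left _ (by have := X.hP; omega)]

theorem sum_D : ∑ i, X.D / (X.P * X.Q i) = (X.P - 1) * X.B := by
  have h := X.sum_low X.D
  rw [X.D_div] at h
  have h1 : X.pen X.B = 1 := by
    have := X.pen_mul (2 * X.W + 2) 0
    rw [X.pen_zero, zero_add, mul_comm] at this
    exact this
  rw [h1] at h
  have h2 : ∑ i, X.low i X.D = ∑ i, X.D / (X.P * X.Q i) :=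
    Finset.sum_congr rfl fun i _ => X.low_D i
  omega

/-- the demands -/
def dem : Fin (X.N + 2) → ℕ :=
  Fin.cases (X.B - 1) (Fin.cases 1 fun i => X.D / (X.P * X.Q i))

@[simp] theorem dem_zero : X.dem 0 = X.B - 1 := rfl
@[simp] theorem dem_one : X.dem (Fin.succ 0) = 1 := rfl
@[simp] theorem dem_succ (i : Fin X.N) : X.dem i.succ.succ = X.D / (X.P * X.Q i) := rfl

theorem total_dem : total X.dem = X.D := by
  unfold total
  rw [Fin.sum_univ_succ, Fin.sum_univ_succ]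
  simp only [dem_zero, dem_one, dem_succ]
  rw [X.sum_D, X.D_B]
  have h1 := X.B_pos
  obtain ⟨b, hb⟩ : ∃ b, X.B = b + 1 := ⟨X.B - 1, by omega⟩
  obtain ⟨p, hp⟩ : ∃ p, X.P = p + 1 := ⟨X.P - 1, by have := X.hP; omega⟩
  rw [hb, hp]
  simp only [Nat.add_sub_cancel]
  ring

/-- the slopes on the right -/
noncomputable def up : Fin (X.N + 2) → ℝ :=
  Fin.cases (1 / (X.D : ℝ)) (Fin.cases (2 * (X.W : ℝ) + 2) fun _ => 1 / (X.D : ℝ))

/-- the slopes on the left -/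
noncomputable def dn : Fin (X.N + 2) → ℝ :=
  Fin.cases (((X.D : ℝ) - 1) / ((X.k0 : ℝ) - 1)) (Fin.cases ((X.D : ℝ) / ((X.k0 : ℝ) - 1)) fun i =>
    ((X.P : ℝ) * X.Q i) / ((X.P : ℝ) * X.ν i - 1))

/-- the penalties -/
noncomputable def F (i : Fin (X.N + 2)) (x : ℝ) : ℝ := max (X.up i * x) (-(X.dn i * x))

/-- the second level -/
noncomputable def B2 : ℝ := ((X.D : ℝ) - 1) / ((X.k0 : ℝ) - 1)

theorem rW : (2 : ℝ) ≤ X.W := by exact_mod_cast X.hW

theorem rk0 : (X.k0 : ℝ) = 2 * X.W * X.W + X.W := by exact_mod_cast X.k0_W.symm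

theorem rD : (X.D : ℝ) = X.k0 + X.W := by exact_mod_cast X.D_eq

theorem rk0p : (0 : ℝ) < X.k0 - 1 := by
  have h : (10 : ℝ) ≤ X.k0 := by exact_mod_cast X.k0_ge
  linarith

theorem rDp : (0 : ℝ) < X.D := by
  have := X.rD
  have := X.rk0p
  have := X.rW
  linarith

theorem B2_ge : 1 ≤ X.B2 := by
  unfold B2
  rw [le_div_iff₀ X.rk0p]
  have := X.rD
  have := X.rW
  linarith

/-- ratio of a gadget model -/
theorem ratio (i : Fin X.N) :
    ((X.dem i.succ.succ : ℕ) : ℝ) / ((total X.dem : ℕ) : ℝ) = 1 / ((X.P : ℝ) * X.Q i) := by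
  rw [X.total_dem, dem_succ]
  obtain ⟨c, hc⟩ := X.PQD i
  have h3 := X.PQpos i
  rw [hc, Nat.mul_div_cancel_left _ h3]
  have h4 : 0 < c := by
    rcases Nat.eq_zero_or_pos c with h | h
    · exfalso
      rw [h, mul_zero] at hc
      have := X.D_eq
      have := X.k0_ge
      omega
    · exact h
  have h5 : (0 : ℝ) < (c : ℝ) := by exact_mod_cast h4
  have h6 : (0 : ℝ) < (X.P : ℝ) * X.Q i := by exact_mod_cast h3
  push_cast
  field_simp

theorem alg {a m x t : ℝ} (ha : 0 < a) :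
    -(a / m * (x - t * (1 / a))) = (t - a * x) / m := by
  have : a / m * (x - t * (1 / a)) = (a * x - t * (a * (1 / a))) / m := by ring
  rw [this, mul_one_div_cancel ha.ne']
  ring

theorem low_of_dev {i : Fin X.N} {t x : ℕ} {b : ℝ} (hb : b ≤ X.B2)
    (h : X.F i.succ.succ ((x : ℝ) - t * (((X.dem i.succ.succ : ℕ) : ℝ) / ((total X.dem : ℕ) : ℝ)))
      ≤ b) : X.low i t ≤ x := by
  rw [X.ratio] at h
  have h1 := le_trans (le_max_right _ _) h
  have h1' : -(((X.P : ℝ) * X.Q i) / ((X.P : ℝ) * X.ν i - 1) *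
      ((x : ℝ) - t * (1 / ((X.P : ℝ) * X.Q i)))) ≤ b := h1
  rw [X.low_le_iff]
  by_contra hcon
  push Not at hcon
  have h2 : ((X.P * X.Q i * x + X.P * X.ν i : ℕ) : ℝ) ≤ t := by exact_mod_cast hcon
  push_cast at h2
  have hQ : (0 : ℝ) < (X.P : ℝ) * X.Q i := by exact_mod_cast X.PQpos i
  have hν : (2 : ℝ) ≤ (X.P : ℝ) * X.ν i := by exact_mod_cast X.Pν2 i
  have hνW : (X.P : ℝ) * X.ν i ≤ X.W := by
    exact_mod_cast (X.PνQ i).trans (X.PQ_le i)
  rw [alg hQ, div_le_iff₀ (by linarith)] at h1'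
  have h4 : (X.P : ℝ) * X.ν i ≤ b * ((X.P : ℝ) * X.ν i - 1) := by linarith
  have h5 : b * ((X.P : ℝ) * X.ν i - 1) ≤ X.B2 * ((X.P : ℝ) * X.ν i - 1) :=
    mul_le_mul_of_nonneg_right hb (by linarith)
  have h6 : (X.P : ℝ) * X.ν i ≤ X.B2 * ((X.P : ℝ) * X.ν i - 1) := h4.trans h5
  unfold B2 at h6
  rw [div_mul_eq_mul_div, le_div_iff₀ X.rk0p, X.rD, X.rk0] at h6
  have hW := X.rW
  nlinarith

theorem dev_of_low {i : Fin X.N} {t x : ℕ} (hx : x ≤ X.D) (h : X.low i t ≤ x) :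
    X.F i.succ.succ ((x : ℝ) - t * (((X.dem i.succ.succ : ℕ) : ℝ) / ((total X.dem : ℕ) : ℝ)))
      ≤ 1 := by
  rw [X.ratio]
  rw [X.low_le_iff] at h
  have hQ : (0 : ℝ) < (X.P : ℝ) * X.Q i := by exact_mod_cast X.PQpos i
  have hν : (2 : ℝ) ≤ (X.P : ℝ) * X.ν i := by exact_mod_cast X.Pν2 i
  refine max_le ?_ ?_
  · change 1 / (X.D : ℝ) * ((x : ℝ) - t * (1 / ((X.P : ℝ) * X.Q i))) ≤ 1
    rw [div_mul_eq_mul_div, one_mul, div_le_one X.rDp]
    have h1 : (x : ℝ) ≤ X.D := by exact_mod_cast hx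
    have h2 : (0 : ℝ) ≤ t * (1 / ((X.P : ℝ) * X.Q i)) := by positivity
    linarith
  · change -(((X.P : ℝ) * X.Q i) / ((X.P : ℝ) * X.ν i - 1) *
      ((x : ℝ) - t * (1 / ((X.P : ℝ) * X.Q i)))) ≤ 1
    rw [alg hQ, div_le_one (by linarith)]
    have h4 : (t : ℝ) + 1 ≤ X.P * X.Q i * x + X.P * X.ν i := by exact_mod_cast h
    linarith

end Par

end Pool.Agent.H116R3.JM
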