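import Pool.Agent.H116R3.JM.PolyT
import Pool.Agent.H642R2.TMSim
import Pool.Agent.H673R2.HardOn

set_option autoImplicit false

/-!
# The maximum deviation problem is hard
-/

namespace Pool.Agent.H116R3.JM

open Pool.Agent.NPC Pool.Agent.H688R2.JIT
open Pool.Agent.H619R2.PM (F3 gg Small)

/-! ### The threshold problem -/

theorem seq_cast {n m : ℕ} (h : n = m) {F : Fin n → ℝ → ℝ} {F' : Fin m → ℝ → ℝ} {d : Fin n → ℕ}
    {d' : Fin m → ℕ} (hF : ∀ i, F i = F' (Fin.cast h i)) (hd : ∀ i, d i = d' (Fin.cast h i))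
    (b : ℝ) : (∃ S, IsSeq d S ∧ maxDev F d S ≤ b) ↔ (∃ S, IsSeq d' S ∧ maxDev F' d' S ≤ b) := by
  subst h
  have h1 : F = F' := funext hF
  have h2 : d = d' := funext hd
  subst h1 h2
  exact Iff.rfl

theorem inst_dec (gs : List Gd) (h : Ok gs) :
    (∃ S, IsSeq (demand (inst gs)) S ∧ maxDev (penalty (inst gs)) (demand (inst gs)) S ≤ 1) ↔
      ¬ ∃ u, pens gs u = 0 := by
  rw [seq_cast (inst_length gs h) (penalty_inst gs h) (demand_inst gs h)]
  constructor
  · rintro ⟨S, h1, h2⟩ h3
    exact (par gs h).special_ne_of_dev (h2.trans (par gs h).B2_ge) h3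
      ((par gs h).special_of_dev h2)
  · intro h3
    push Not at h3
    exact (par gs h).exists_one (fun u => Nat.one_le_iff_ne_zero.2 (h3 u))

/-! ### 3SAT with small names of variables -/

theorem small_ren3 (φ : F3) : Small (ren3 φ) := by
  have hlen : (vars3 φ).length = 3 * φ.length := by
    unfold vars3
    rw [List.length_flatMap]
    simp [mul_comm]
  have hg : gg (ren3 φ) = 3 * φ.length + 1 := by
    unfold gg ren3
    rw [List.length_map]
  have key : ∀ v ∈ vars3 φ, index (vars3 φ) v < gg (ren3 φ) := by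
    intro v hv
    have h := getElem?_index hv
    have := (List.getElem?_eq_some_iff.1 h).1
    omega
  intro c hc
  unfold ren3 at hc
  rw [List.mem_map] at hc
  obtain ⟨d, hd, rfl⟩ := hc
  obtain ⟨h1, h2, h3⟩ := mem_vars3 hd
  exact ⟨key _ h1, key _ h2, key _ h3⟩

theorem hardPr_small : HardPr (fun φ : F3 => Small φ) SAT3 :=
  hardPr_SAT3.trans (f := ren3 (V := ℕ)) ren3_poly
    (fun φ _ => small_ren3 φ) (fun φ _ => ren3_sat φ)

/-! ### Hardness -/

theorem coNP_hard : H673R2.CoNPHardOn Valid (fun I : Inst => ∃ S : ℕ → Fin I.length,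
    IsSeq (demand I) S ∧ maxDev (penalty I) (demand I) S ≤ 1) := by
  refine H673R2.coNPHardOn_of hardPr_small poly_inst (fun φ _ => valid_inst _ (ok_fgads φ))
    (fun φ hφ => ?_)
  rw [fgads_spec hφ, inst_dec _ (ok_fgads φ), not_not]

theorem no_alg (h : ∃ A Q : List Bool → List Bool, PolyTime A ∧ PolyTime Q ∧ SolvesMaxDev A Q) :
    ∀ L : Set (List Bool), InNP L → InP L := by
  obtain ⟨A, Q, hA, hQ, hs⟩ := h
  have a1 : PC (bits : F3 → List Bool) (fun x : List Bool => x) (fun φ => bits (inst (fgads φ))) := by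
    obtain ⟨c, p, h⟩ := poly_inst
    exact ⟨c, p, h⟩
  have a2 : PC (bits : F3 → List Bool) (fun x : List Bool => x)
      (fun φ => A (bits (inst (fgads φ)))) :=
    PC.comp (g := A) (f := fun φ => bits (inst (fgads φ))) (H642R2.TMSim.polyTime_toPC hA) a1
  have a3 : NPC.Poly (fun φ : F3 => A (bits (inst (fgads φ)))) :=
    PC.comp (g := fun x => x) (f := fun φ => A (bits (inst (fgads φ)))) PC.rawIn a2
  have b0 : NPC.Poly (fun φ : F3 => (A (bits (inst (fgads φ))), qpos (fgads φ))) :=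
    NPC.Poly.pair a3 poly_qpos
  have b1 : PC (bits : F3 → List Bool) (fun x : List Bool => x)
      (fun φ => bits (A (bits (inst (fgads φ))), qpos (fgads φ))) := by
    obtain ⟨c, p, h⟩ := b0
    exact ⟨c, p, h⟩
  have b2 : PC (bits : F3 → List Bool) (fun x : List Bool => x)
      (fun φ => Q (bits (A (bits (inst (fgads φ))), qpos (fgads φ)))) :=
    PC.comp (g := Q) (f := fun φ => bits (A (bits (inst (fgads φ))), qpos (fgads φ)))
      (H642R2.TMSim.polyTime_toPC hQ) b1
  have b3 : NPC.Poly (fun φ : F3 => Q (bits (A (bits (inst (fgads φ))), qpos (fgads φ)))) :=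
    PC.comp (g := fun x => x) (f := fun φ => Q (bits (A (bits (inst (fgads φ))), qpos (fgads φ))))
      PC.rawIn b2
  refine hardPr_small.collapse
    (d := fun φ => !decide (Q (bits (A (bits (inst (fgads φ))), qpos (fgads φ))) = bits (1 : ℕ)))
    (NPC.Poly.not (NPC.Poly.decide_eq b3 (NPC.Poly.const _))) (fun φ hφ => ?_)
  obtain ⟨S, hS, hq⟩ := hs (inst (fgads φ)) (valid_inst _ (ok_fgads φ))
  obtain ⟨h1, h2⟩ := inst_spec _ (ok_fgads φ) hS
  rw [fgads_spec hφ, h2, hq _ h1, Bool.not_eq_true', decide_eq_false_iff_not]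
  exact not_congr (bits_injective.eq_iff).symm

end Pool.Agent.H116R3.JM
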