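import Pool.Agent.H116R3.JM.Main
import Pool.Agent.NPC.Dec

set_option autoImplicit false

/-!
# Gadgets
-/

namespace Pool.Agent.H116R3.JM

open Finset Pool.Agent.H688R2.JIT

/-- A gadget is a list of conditions `(q, r)`; it punishes the numbers `u` with `u % q = r` for all
its conditions. -/
abbrev Gd : Type := List (ℕ × ℕ)

def gmod (g : Gd) : ℕ := (g.map Prod.fst).prod

def gbad (g : Gd) (u : ℕ) : Bool := g.all (fun c => decide (u % c.1 = c.2))

def gpen (g : Gd) (u : ℕ) : ℕ := if gbad g u = true then 1 else 0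

theorem gpen_le (g : Gd) (u : ℕ) : gpen g u ≤ 1 := by
  unfold gpen
  split_ifs <;> omega

/-- The models of a gadget, given by pairs `(Q, ν)`. -/
def gmodels (g : Gd) : List (ℕ × ℕ) :=
  (List.range (gmod g)).flatMap fun j =>
    if gbad g j = true then
      (if gbad g (j + 1) = true then [(gmod g, j + 1)] else [(gmod g, j + 1), (gmod g, j + 1)])
    else (if gbad g (j + 1) = true then [] else [(gmod g, j + 1)])

theorem mem_gmodels {g : Gd} {m : ℕ × ℕ} (h : m ∈ gmodels g) :
    m.1 = gmod g ∧ 1 ≤ m.2 ∧ m.2 ≤ gmod g := by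
  unfold gmodels at h
  rw [List.mem_flatMap] at h
  obtain ⟨j, hj, h⟩ := h
  rw [List.mem_range] at hj
  have : m = (gmod g, j + 1) := by
    split_ifs at h <;> simpa using h
  rw [this]
  exact ⟨rfl, by omega, by simp only; omega⟩

theorem sum_range_flatMap (f : ℕ × ℕ → ℕ) (F : ℕ → List (ℕ × ℕ)) (n : ℕ) :
    (((List.range n).flatMap F).map f).sum = ∑ j ∈ range n, ((F j).map f).sum := by
  induction n with
  | zero => simp
  | succ n ih =>
    rw [List.range_succ, List.flatMap_append, List.map_append, List.sum_append, ih,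
      Finset.sum_range_succ]
    simp

theorem sum_gmodels (g : Gd) (f : ℕ × ℕ → ℕ) :
    ((gmodels g).map f).sum =
      ∑ j ∈ range (gmod g), (1 + gpen g j - gpen g (j + 1)) * f (gmod g, j + 1) := by
  unfold gmodels
  rw [sum_range_flatMap]
  refine Finset.sum_congr rfl fun j _ => ?_
  unfold gpen
  split_ifs <;> simp
  ring

theorem gbad_mod {g : Gd} {u v : ℕ} (h : u ≡ v [MOD gmod g]) : gbad g u = gbad g v := by
  unfold gbad
  rw [Bool.eq_iff_iff, List.all_eq_true, List.all_eq_true]
  have key : ∀ c ∈ g, u % c.1 = v % c.1 := by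
    intro c hc
    have h1 : c.1 ∣ gmod g := List.dvd_prod (List.mem_map_of_mem hc)
    exact h.of_dvd h1
  constructor
  · intro h1 c hc
    rw [← key c hc]
    exact h1 c hc
  · intro h1 c hc
    rw [key c hc]
    exact h1 c hc

theorem gpen_mod {g : Gd} {u v : ℕ} (h : u ≡ v [MOD gmod g]) : gpen g u = gpen g v := by
  unfold gpen
  rw [gbad_mod h]

theorem gsum (g : Gd) (hg : 0 < gmod g) (u : ℕ) :
    ((gmodels g).map (fun m => (u + (m.1 - m.2)) / m.1)).sum + gpen g u = u + gpen g 0 := by
  induction u with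
  | zero =>
    have h : ((gmodels g).map (fun m => (0 + (m.1 - m.2)) / m.1)).sum = 0 := by
      rw [sum_gmodels]
      refine Finset.sum_eq_zero fun j hj => ?_
      rw [Finset.mem_range] at hj
      rw [Nat.div_eq_of_lt (by simp only; omega), mul_zero]
    rw [h]
  | succ u ih =>
    have h : ((gmodels g).map (fun m => (u + 1 + (m.1 - m.2)) / m.1)).sum =
        ((gmodels g).map (fun m => (u + (m.1 - m.2)) / m.1)).sum +
        (1 + gpen g u - gpen g (u + 1)) := by
      rw [sum_gmodels, sum_gmodels]
      have h1 : ∀ j ∈ range (gmod g), (1 + gpen g j - gpen g (j + 1)) *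
          ((u + 1 + (gmod g - (j + 1))) / gmod g) =
          (1 + gpen g j - gpen g (j + 1)) * ((u + (gmod g - (j + 1))) / gmod g) +
          (if j = u % gmod g then (1 + gpen g j - gpen g (j + 1)) else 0) := by
        intro j hj
        rw [Finset.mem_range] at hj
        rw [show u + 1 + (gmod g - (j + 1)) = (u + (gmod g - (j + 1))) + 1 by omega, Nat.succ_div]
        have h2 : gmod g ∣ u + (gmod g - (j + 1)) + 1 ↔ j = u % gmod g := by
          have h3 : u + (gmod g - (j + 1)) + 1 = u + (gmod g - j) := by omega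
          rw [h3]
          have h4 := Nat.div_add_mod u (gmod g)
          have h5 := Nat.mod_lt u hg
          constructor
          · intro h6
            have h7 : gmod g ∣ u % gmod g + (gmod g - j) := by
              have h8 : u + (gmod g - j) = gmod g * (u / gmod g) + (u % gmod g + (gmod g - j)) := by
                omega
              rw [h8] at h6
              exact (Nat.dvd_add_right (Dvd.intro _ rfl)).1 h6
            obtain ⟨c, hc⟩ := h7
            have h9 : c = 1 := by
              rcases Nat.lt_or_ge c 1 with h | h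
              · have : c = 0 := by omega
                rw [this, mul_zero] at hc
                omega
              · rcases Nat.lt_or_ge c 2 with h' | h'
                · omega
                · have : gmod g * 2 ≤ gmod g * c := Nat.mul_le_mul_left _ h'
                  omega
            rw [h9, mul_one] at hc
            omega
          · intro h6
            refine ⟨u / gmod g + 1, ?_⟩
            rw [mul_add, mul_one]
            omega
        by_cases h3 : j = u % gmod g
        · rw [if_pos (h2.2 h3), if_pos h3]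
          ring
        · rw [if_neg (fun h => h3 (h2.1 h)), if_neg h3, add_zero, add_zero]
      rw [Finset.sum_congr rfl h1, Finset.sum_add_distrib, Finset.sum_ite_eq',
        if_pos (Finset.mem_range.2 (Nat.mod_lt u hg)), gpen_mod (Nat.mod_modEq u (gmod g)),
        gpen_mod ((Nat.mod_modEq u (gmod g)).add_right 1)]
    rw [h]
    have := gpen_le g (u + 1)
    omega

def models (gs : List Gd) : List (ℕ × ℕ) := gs.flatMap gmodels

def pens (gs : List Gd) (u : ℕ) : ℕ := (gs.map (fun g => gpen g u)).sum

theorem sum_models (gs : List Gd) (hg : ∀ g ∈ gs, 0 < gmod g) (u : ℕ) :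
    ((models gs).map (fun m => (u + (m.1 - m.2)) / m.1)).sum + pens gs u =
      gs.length * u + pens gs 0 := by
  unfold models pens
  induction gs with
  | nil => simp
  | cons g gs ih =>
    have h1 := gsum g (hg g List.mem_cons_self) u
    have h2 := ih (fun g' hg' => hg g' (List.mem_cons_of_mem _ hg'))
    simp only [List.flatMap_cons, List.map_append, List.sum_append, List.map_cons, List.sum_cons,
      List.length_cons]
    rw [add_mul, one_mul]
    omega

theorem mem_models {gs : List Gd} {m : ℕ × ℕ} (h : m ∈ models gs) :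
    1 ≤ m.2 ∧ m.2 ≤ m.1 ∧ m.1 ∣ (gs.map gmod).prod := by
  unfold models at h
  rw [List.mem_flatMap] at h
  obtain ⟨g, hg, h⟩ := h
  obtain ⟨h1, h2, h3⟩ := mem_gmodels h
  rw [h1]
  exact ⟨h2, h3, List.dvd_prod (List.mem_map_of_mem hg)⟩

/-- The conditions on the list of gadgets. -/
structure Ok (gs : List Gd) : Prop where
  ne : 1 ≤ gs.length
  pos : ∀ g ∈ gs, 0 < gmod g
  one : pens gs 0 = 1

/-- The abstract instance. -/
def par (gs : List Gd) (h : Ok gs) : Par where
  P := gs.length + 1
  R := (gs.map gmod).prod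
  N := (models gs).length
  Q i := (models gs)[i.1].1
  ν i := (models gs)[i.1].2
  pen := pens gs
  hP := by have := h.ne; omega
  hR := by
    refine Nat.pos_of_ne_zero fun h0 => ?_
    rw [List.prod_eq_zero_iff, List.mem_map] at h0
    obtain ⟨g, hg, h1⟩ := h0
    have := h.pos g hg
    omega
  hν1 i := (mem_models (List.getElem_mem i.2)).1
  hνQ i := (mem_models (List.getElem_mem i.2)).2.1
  hQR i := (mem_models (List.getElem_mem i.2)).2.2
  per u := by
    unfold pens
    congr 1
    refine List.map_congr_left fun g hg => ?_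
    refine gpen_mod ?_
    have h1 : gmod g ∣ (gs.map gmod).prod := List.dvd_prod (List.mem_map_of_mem hg)
    exact Nat.add_modEq_left_iff.2 h1
  key u v hv := by
    have h1 := sum_models gs h.pos u
    rw [h.one] at h1
    have h2 : ∑ i : Fin (models gs).length, ((gs.length + 1) * u + v +
        ((gs.length + 1) * (models gs)[i.1].1 - (gs.length + 1) * (models gs)[i.1].2)) /
          ((gs.length + 1) * (models gs)[i.1].1) =
        ((models gs).map (fun m => (u + (m.1 - m.2)) / m.1)).sum := by
      rw [← Fin.sum_univ_fun_getElem]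
      refine Finset.sum_congr rfl fun i _ => ?_
      rw [← Nat.mul_sub, ← Nat.div_div_eq_div_mul]
      congr 1
      rw [show (gs.length + 1) * u + v + (gs.length + 1) * ((models gs)[i.1].1 - (models gs)[i.1].2)
        = (gs.length + 1) * (u + ((models gs)[i.1].1 - (models gs)[i.1].2)) + v by ring,
        Nat.mul_add_div (by omega), Nat.div_eq_of_lt hv, add_zero]
    rw [h2]
    simp only [Nat.add_sub_cancel]
    exact h1

/-- the entry of a model -/
def entry (P D : ℕ) (m : ℕ × ℕ) : ℕ × (ℕ × ℕ) × (ℕ × ℕ) :=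
  (D / (P * m.1), (1, D), (P * m.1, P * m.2 - 1))

/-- The instance of a list of gadgets. -/
def instW (P W : ℕ) (ms : List (ℕ × ℕ)) : Inst :=
  (W / P * (2 * W + 2) - 1, (1, W * (2 * W + 2)), (W * (2 * W + 2) - 1, W * (2 * W + 1) - 1)) ::
  (1, (2 * W + 2, 1), (W * (2 * W + 2), W * (2 * W + 1) - 1)) ::
  ms.map (entry P (W * (2 * W + 2)))

def inst (gs : List Gd) : Inst :=
  instW (gs.length + 1) ((gs.length + 1) * (gs.map gmod).prod) (models gs)

/-- The position to be queried. -/
def qpos (gs : List Gd) : ℕ :=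
  ((gs.length + 1) * (gs.map gmod).prod) * (2 * ((gs.length + 1) * (gs.map gmod).prod) + 1)

theorem inst_length (gs : List Gd) (h : Ok gs) : (inst gs).length = (par gs h).N + 2 := by
  simp [inst, instW, par]

theorem opt_cast {n m : ℕ} (h : n = m) {F : Fin n → ℝ → ℝ} {F' : Fin m → ℝ → ℝ} {d : Fin n → ℕ}
    {d' : Fin m → ℕ} (hF : ∀ i, F i = F' (Fin.cast h i)) (hd : ∀ i, d i = d' (Fin.cast h i))
    {S : ℕ → Fin n} (hS : IsMaxOptimal F d S) :
    IsMaxOptimal F' d' (fun k => Fin.cast h (S k)) ∧ total d = total d' := by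
  subst h
  have h1 : F = F' := funext hF
  have h2 : d = d' := funext hd
  subst h1 h2
  exact ⟨hS, rfl⟩

theorem demand_inst (gs : List Gd) (h : Ok gs) (i : Fin (inst gs).length) :
    demand (inst gs) i = (par gs h).dem (Fin.cast (inst_length gs h) i) := by
  obtain ⟨j, hj⟩ := i
  match j, hj with
  | 0, hj =>
    change (gs.length + 1) * (gs.map gmod).prod / (gs.length + 1) *
      (2 * ((gs.length + 1) * (gs.map gmod).prod) + 2) - 1 = (gs.map gmod).prod *
      (2 * ((gs.length + 1) * (gs.map gmod).prod) + 2) - 1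
    rw [Nat.mul_div_cancel_left _ (Nat.succ_pos _)]
  | 1, hj => rfl
  | j + 2, hj =>
    have hj' : j < (models gs).length := by
      have := inst_length gs h
      simp only [par] at this
      omega
    change (((models gs).map (entry (gs.length + 1) _))[j]'(by simpa using hj')).1 =
      (par gs h).D / ((par gs h).P * (models gs)[j].1)
    rw [List.getElem_map]
    rfl

theorem penalty_inst (gs : List Gd) (h : Ok gs) (i : Fin (inst gs).length) :
    penalty (inst gs) i = (par gs h).F (Fin.cast (inst_length gs h) i) := by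
  have hk := (par gs h).k0_ge
  have hD := (par gs h).D_eq
  obtain ⟨j, hj⟩ := i
  match j, hj with
  | 0, hj =>
    funext x
    change max (((1 : ℕ) : ℝ) / (((par gs h).D : ℕ) : ℝ) * x)
      (-((((par gs h).D - 1 : ℕ) : ℝ) / (((par gs h).k0 - 1 : ℕ) : ℝ) * x)) =
      max (1 / ((par gs h).D : ℝ) * x)
        (-((((par gs h).D : ℝ) - 1) / (((par gs h).k0 : ℝ) - 1) * x))
    rw [Nat.cast_sub (by omega), Nat.cast_sub (by omega), Nat.cast_one]
  | 1, hj =>
    funext x
    change max (((2 * (par gs h).W + 2 : ℕ) : ℝ) / ((1 : ℕ) : ℝ) * x)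
      (-((((par gs h).D : ℕ) : ℝ) / (((par gs h).k0 - 1 : ℕ) : ℝ) * x)) =
      max ((2 * ((par gs h).W : ℝ) + 2) * x)
        (-(((par gs h).D : ℝ) / (((par gs h).k0 : ℝ) - 1) * x))
    rw [Nat.cast_sub (by omega), Nat.cast_one, div_one]
    push_cast
    rfl
  | j + 2, hj =>
    funext x
    have hj' : j < (models gs).length := by
      have := inst_length gs h
      simp only [par] at this
      omega
    have e : (inst gs).get ⟨j + 2, hj⟩ = entry (gs.length + 1) (par gs h).D (models gs)[j] := by
      change ((models gs).map (entry (gs.length + 1) _))[j]'(by simpa using hj') = _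
      rw [List.getElem_map]
      rfl
    have h2 := (par gs h).Pν2 ⟨j, hj'⟩
    unfold penalty
    rw [e]
    change max (((1 : ℕ) : ℝ) / (((par gs h).D : ℕ) : ℝ) * x)
      (-((((par gs h).P * (par gs h).Q ⟨j, hj'⟩ : ℕ) : ℝ) /
        (((par gs h).P * (par gs h).ν ⟨j, hj'⟩ - 1 : ℕ) : ℝ) * x)) =
      max (1 / ((par gs h).D : ℝ) * x)
        (-((((par gs h).P : ℝ) * (par gs h).Q ⟨j, hj'⟩) /
          (((par gs h).P : ℝ) * (par gs h).ν ⟨j, hj'⟩ - 1) * x))
    rw [Nat.cast_sub (by omega), Nat.cast_one]
    push_cast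
    rfl

theorem valid_inst (gs : List Gd) (h : Ok gs) : Valid (inst gs) := by
  have hk := (par gs h).k0_ge
  have hD := (par gs h).D_eq
  have hW := (par gs h).hW
  have hP := (par gs h).hP
  have hR := (par gs h).hR
  refine ⟨by simp [inst, instW], fun e he => ?_⟩
  unfold inst instW at he
  rw [List.mem_cons, List.mem_cons, List.mem_map] at he
  rcases he with rfl | rfl | ⟨m, hm, rfl⟩
  · change 0 < (gs.length + 1) * (gs.map gmod).prod / (gs.length + 1) *
      (2 * ((gs.length + 1) * (gs.map gmod).prod) + 2) - 1 ∧ 0 < 1 ∧ 0 < (par gs h).D ∧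
      0 < (par gs h).D - 1 ∧ 0 < (par gs h).k0 - 1
    rw [Nat.mul_div_cancel_left _ (Nat.succ_pos _)]
    have h1 : 1 ≤ (gs.map gmod).prod := hR
    refine ⟨?_, by omega, by omega, by omega, by omega⟩
    have : 2 * ((gs.length + 1) * (gs.map gmod).prod) + 2 ≤
      (gs.map gmod).prod * (2 * ((gs.length + 1) * (gs.map gmod).prod) + 2) :=
      Nat.le_mul_of_pos_left _ h1
    omega
  · change 0 < 1 ∧ 0 < 2 * (par gs h).W + 2 ∧ 0 < 1 ∧ 0 < (par gs h).D ∧ 0 < (par gs h).k0 - 1
    omega
  · obtain ⟨j, hj, rfl⟩ := List.mem_iff_getElem.1 hm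
    have h1 := (par gs h).Pν2 ⟨j, hj⟩
    have h2 := (par gs h).PQ_le ⟨j, hj⟩
    have h3 := (par gs h).PQpos ⟨j, hj⟩
    change 0 < (par gs h).D / ((par gs h).P * (par gs h).Q ⟨j, hj⟩) ∧ 0 < 1 ∧ 0 < (par gs h).D ∧
      0 < (par gs h).P * (par gs h).Q ⟨j, hj⟩ ∧ 0 < (par gs h).P * (par gs h).ν ⟨j, hj⟩ - 1
    refine ⟨Nat.div_pos (by omega) h3, by omega, by omega, h3, by omega⟩

/-- **The instance of a list of gadgets.** -/
theorem inst_spec (gs : List Gd) (h : Ok gs) {S : ℕ → Fin (inst gs).length}
    (hS : IsMaxOptimal (penalty (inst gs)) (demand (inst gs)) S) :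
    qpos gs ∈ Finset.Icc 1 (total (demand (inst gs))) ∧
    ((∃ u, pens gs u = 0) ↔ ((S (qpos gs) : Fin _) : ℕ) ≠ 1) := by
  obtain ⟨h1, h2⟩ := opt_cast (inst_length gs h) (penalty_inst gs h) (demand_inst gs h) hS
  have hk := (par gs h).k0_ge
  have hD := (par gs h).D_eq
  refine ⟨?_, ?_⟩
  · rw [h2, Par.total_dem, Finset.mem_Icc]
    change 1 ≤ (par gs h).k0 ∧ (par gs h).k0 ≤ (par gs h).D
    omega
  · have e : ((S (qpos gs) : Fin _) : ℕ) = 1 ↔
        Fin.cast (inst_length gs h) (S (par gs h).k0) = Fin.succ 0 := by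
      rw [Fin.ext_iff]
      rfl
    rw [ne_eq, e]
    constructor
    · intro h3
      exact Par.opt_sat (par gs h) h3 h1
    · intro h3
      by_contra hcon
      push Not at hcon
      refine h3 (Par.opt_unsat (par gs h) (fun u => ?_) h1)
      exact Nat.one_le_iff_ne_zero.2 (hcon u)

end Pool.Agent.H116R3.JM
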