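import Pool.Agent.H116R3.JM.Build

set_option autoImplicit false

/-!
# Optimal sequences of the abstract instances
-/

namespace Pool.Agent.H116R3.JM

open Finset Pool.Agent.H688R2.JIT

namespace Par

variable (X : Par)

/-- If `pen u ≠ 0` for all `u`, there is a sequence with maximum deviation at most `1`. -/
theorem exists_one (h : ∀ u, 1 ≤ X.pen u) :
    ∃ S : ℕ → Fin (X.N + 2), IsSeq X.dem S ∧ maxDev X.F X.dem S ≤ 1 := by
  have hP := X.hP
  have hR := X.hR
  have hk := X.k0_ge
  have hD := X.D_eq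
  have hDB := X.D_B
  have hW := X.hW
  have hPW := X.PW
  have hdiv : ∀ t, (t + 1) / X.P = t / X.P ∨ (t + 1) / X.P = t / X.P + 1 := by
    intro t
    rw [Nat.succ_div]
    split_ifs
    · right; rfl
    · left; rfl
  have hle : ∀ t, t / X.P ≤ t := fun t => Nat.div_le_self _ _
  refine X.exists_seq (fun t => t - t / X.P) X.k0 1 le_rfl (by omega) (by omega) (by simp) ?_ ?_ ?_
    ?_ ?_ ?_
  · intro t _
    have := hdiv t
    have := hle t
    have := hle (t + 1)
    omega
  · rw [X.D_div, hDB]
    obtain ⟨p, hp⟩ : ∃ p, X.P = p + 1 := ⟨X.P - 1, by omega⟩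
    rw [hp]
    simp only [Nat.add_sub_cancel]
    rw [add_mul, one_mul, Nat.add_sub_cancel]
  · intro t _
    have h1 := X.sum_low t
    have h2 := h (t / X.P)
    have h3 : (X.P - 1) * (t / X.P) ≤ t - t / X.P := by
      have h4 := Nat.div_mul_le_self t X.P
      obtain ⟨p, hp⟩ : ∃ p, X.P = p + 1 := ⟨X.P - 1, by omega⟩
      rw [hp] at h4 ⊢
      simp only [Nat.add_sub_cancel]
      rw [mul_comm, add_mul, one_mul] at h4
      rw [add_comm] at h4
      refine Nat.le_sub_of_add_le ?_
      rw [mul_comm p]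
      nlinarith
    omega
  · have h1 := X.k0_mod
    have h2 : X.k0 / X.P = (X.k0 - 1) / X.P + 1 := by
      have h3 := Nat.succ_div (a := X.k0 - 1) (b := X.P)
      rw [show X.k0 - 1 + 1 = X.k0 by omega,
        if_pos (Nat.dvd_of_mod_eq_zero h1)] at h3
      exact h3
    have h4 := hle (X.k0 - 1)
    omega
  · intro t ht1 htD
    have hkp := X.rk0p
    have hDp := X.rDp
    have htD' : (t : ℝ) ≤ X.D := by exact_mod_cast htD
    have ht0 : (0 : ℝ) ≤ t := Nat.cast_nonneg _
    refine max_le ?_ ?_
    · change (2 * (X.W : ℝ) + 2) * ((((if X.k0 ≤ t then 1 else 0 : ℕ) : ℝ)) - t * (1 / X.D)) ≤ 1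
      have h5 : (0 : ℝ) ≤ t * (1 / X.D) := by positivity
      have hWp := X.rW
      split_ifs with h1
      · have h2 : (X.k0 : ℝ) ≤ t := by exact_mod_cast h1
        have e : (2 * (X.W : ℝ) + 2) * (((1 : ℕ) : ℝ) - t * (1 / X.D)) =
            (2 * (X.W : ℝ) + 2) * (X.D - t) / X.D := by
          push_cast
          field_simp
        rw [e, div_le_one hDp]
        have h3 : (X.D : ℝ) = X.W * (2 * X.W + 2) := by
          rw [X.rD, X.rk0]; ring
        have h4 : (X.D : ℝ) - t ≤ X.W := by
          have := X.rD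
          linarith
        nlinarith
      · push_cast
        nlinarith
    · change -((X.D : ℝ) / ((X.k0 : ℝ) - 1) *
        ((((if X.k0 ≤ t then 1 else 0 : ℕ) : ℝ)) - t * (1 / X.D))) ≤ 1
      rw [alg hDp, div_le_one hkp]
      split_ifs with h1
      · push_cast
        linarith
      · have h2 : t + 1 ≤ X.k0 := by omega
        have h3 : (t : ℝ) + 1 ≤ X.k0 := by exact_mod_cast h2
        push_cast
        linarith
  · intro t ht1 htD
    have hkp := X.rk0p
    have hDp := X.rDp
    have hWp := X.rW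
    have hPp := X.rP
    have htD' : (t : ℝ) ≤ X.D := by exact_mod_cast htD
    have hPW' : (X.P : ℝ) ≤ X.W := by exact_mod_cast hPW
    -- the fractional part
    have hmod : (t : ℝ) / X.P - ((t / X.P : ℕ) : ℝ) ≤ 1 - 1 / X.P := by
      have h1 : t + 1 ≤ X.P * (t / X.P) + X.P := by
        have := Nat.div_add_mod t X.P
        have := Nat.mod_lt t (show 0 < X.P by omega)
        omega
      have h2 : (t : ℝ) + 1 ≤ X.P * ((t / X.P : ℕ) : ℝ) + X.P := by exact_mod_cast h1
      have h3 : (t : ℝ) / X.P - ((t / X.P : ℕ) : ℝ) = (t - X.P * ((t / X.P : ℕ) : ℝ)) / X.P := by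
        field_simp
      have h4 : (1 : ℝ) - 1 / X.P = (X.P - 1) / X.P := by
        field_simp
      rw [h3, h4, div_le_div_iff_of_pos_right (by linarith)]
      linarith
    have hc : (((t - t / X.P : ℕ)) : ℝ) = t - ((t / X.P : ℕ) : ℝ) := Nat.cast_sub (hle t)
    have hB2 : X.B2 = ((X.D : ℝ) - 1) / ((X.k0 : ℝ) - 1) := rfl
    rw [hB2, div_mul_eq_mul_div, div_le_one hkp, hc]
    have e : (t : ℝ) - ((t / X.P : ℕ) : ℝ) + (((if X.k0 ≤ t then 1 else 0 : ℕ) : ℝ)) - t +
        t * (1 / X.P - 1 / X.D) = ((t : ℝ) / X.P - ((t / X.P : ℕ) : ℝ)) +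
        (((if X.k0 ≤ t then 1 else 0 : ℕ) : ℝ)) - t / X.D := by ring
    rw [e]
    have hD1 : (0 : ℝ) ≤ (X.D : ℝ) - 1 := by
      have := X.rD
      linarith
    have hrD := X.rD
    have hrk := X.rk0
    have hPinv : (1 : ℝ) / X.W ≤ 1 / X.P := one_div_le_one_div_of_le (by linarith) hPW'
    have hWW : (X.D : ℝ) - 1 ≤ ((X.k0 : ℝ) - 1) * (1 + 1 / (2 * X.W)) := by
      have h5 : ((X.k0 : ℝ) - 1) * (1 + 1 / (2 * X.W)) = (X.k0 - 1) + (X.k0 - 1) / (2 * X.W) := by
        ring
      have h6 : (X.W : ℝ) ≤ (X.k0 - 1) / (2 * X.W) := by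
        rw [le_div_iff₀ (by linarith), hrk]
        nlinarith
      rw [h5, hrD]
      linarith
    split_ifs with h1
    · have h2 : (X.k0 : ℝ) ≤ t := by exact_mod_cast h1
      have h3 : (t : ℝ) / X.D ≥ 1 - 1 / (2 * X.W + 2) := by
        rw [ge_iff_le, le_div_iff₀ hDp]
        have h4 : (1 - 1 / (2 * (X.W : ℝ) + 2)) * X.D = X.k0 := by
          have h5 : (X.D : ℝ) = X.W * (2 * X.W + 2) := by
            rw [hrD, hrk]; ring
          have h6 : (X.k0 : ℝ) = X.W * (2 * X.W + 1) := by
            rw [hrk]; ring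
          rw [h5, h6]
          field_simp
          ring
        rw [h4]
        exact h2
      have h7 : (t : ℝ) / X.P - ((t / X.P : ℕ) : ℝ) + ((1 : ℕ) : ℝ) - t / X.D ≤
          1 - 1 / X.W + 1 / (2 * X.W + 2) := by
        push_cast
        linarith
      have h8 : (1 : ℝ) / (2 * X.W + 2) ≤ 1 / (2 * X.W) :=
        one_div_le_one_div_of_le (by linarith) (by linarith)
      have h9 : (1 : ℝ) / X.W = 2 * (1 / (2 * X.W)) := by
        field_simp
      have h10 : (t : ℝ) / X.P - ((t / X.P : ℕ) : ℝ) + ((1 : ℕ) : ℝ) - t / X.D ≤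
          1 - 1 / (2 * X.W) := by
        linarith
      have h11 : (0 : ℝ) ≤ 1 - 1 / (2 * X.W) := by
        have : (1 : ℝ) / (2 * X.W) ≤ 1 := by
          rw [div_le_one (by linarith)]
          linarith
        linarith
      calc ((X.D : ℝ) - 1) * ((t : ℝ) / X.P - ((t / X.P : ℕ) : ℝ) + ((1 : ℕ) : ℝ) - t / X.D)
          ≤ ((X.D : ℝ) - 1) * (1 - 1 / (2 * X.W)) := mul_le_mul_of_nonneg_left h10 hD1
        _ ≤ (((X.k0 : ℝ) - 1) * (1 + 1 / (2 * X.W))) * (1 - 1 / (2 * X.W)) :=
            mul_le_mul_of_nonneg_right hWW h11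
        _ = ((X.k0 : ℝ) - 1) * (1 - (1 / (2 * X.W)) ^ 2) := by ring
        _ ≤ (X.k0 : ℝ) - 1 := by
            have : (0 : ℝ) ≤ (1 / (2 * (X.W : ℝ))) ^ 2 := sq_nonneg _
            nlinarith
    · have h3 : (0 : ℝ) ≤ (t : ℝ) / X.D := by positivity
      have h7 : (t : ℝ) / X.P - ((t / X.P : ℕ) : ℝ) + ((0 : ℕ) : ℝ) - t / X.D ≤
          1 - 1 / X.W := by
        push_cast
        linarith
      have h9 : (1 : ℝ) / X.W = 2 * (1 / (2 * X.W)) := by
        field_simp
      have h8 : (0 : ℝ) ≤ 1 / (2 * X.W) := by positivity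
      have h10 : (t : ℝ) / X.P - ((t / X.P : ℕ) : ℝ) + ((0 : ℕ) : ℝ) - t / X.D ≤
          1 - 1 / (2 * X.W) := by
        linarith
      have h11 : (0 : ℝ) ≤ 1 - 1 / (2 * X.W) := by
        have : (1 : ℝ) / (2 * X.W) ≤ 1 := by
          rw [div_le_one (by linarith)]
          linarith
        linarith
      calc ((X.D : ℝ) - 1) * ((t : ℝ) / X.P - ((t / X.P : ℕ) : ℝ) + ((0 : ℕ) : ℝ) - t / X.D)
          ≤ ((X.D : ℝ) - 1) * (1 - 1 / (2 * X.W)) := mul_le_mul_of_nonneg_left h10 hD1
        _ ≤ (((X.k0 : ℝ) - 1) * (1 + 1 / (2 * X.W))) * (1 - 1 / (2 * X.W)) :=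
            mul_le_mul_of_nonneg_right hWW h11
        _ = ((X.k0 : ℝ) - 1) * (1 - (1 / (2 * X.W)) ^ 2) := by ring
        _ ≤ (X.k0 : ℝ) - 1 := by
            have : (0 : ℝ) ≤ (1 / (2 * (X.W : ℝ))) ^ 2 := sq_nonneg _
            nlinarith

/-- There is always a sequence with maximum deviation at most `B2`. -/
theorem exists_two : ∃ S : ℕ → Fin (X.N + 2), IsSeq X.dem S ∧ maxDev X.F X.dem S ≤ X.B2 := by
  have hP := X.hP
  have hR := X.hR
  have hk := X.k0_ge
  have hD := X.D_eq
  have hDB := X.D_B
  have hW := X.hW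
  have hBp := X.B_pos
  have hdiv : ∀ t, (t + 1) / X.P = t / X.P ∨ (t + 1) / X.P = t / X.P + 1 := by
    intro t
    rw [Nat.succ_div]
    split_ifs
    · right; rfl
    · left; rfl
  have hle : ∀ t, t / X.P ≤ t := fun t => Nat.div_le_self _ _
  set c : ℕ → ℕ := fun t => if t = 0 then 0 else if X.D ≤ t then (X.P - 1) * X.B else
    t - (t - 1) / X.P with hc
  have hlast : X.D - 1 - (X.D - 1 - 1) / X.P = (X.P - 1) * X.B := by
    obtain ⟨b, hb⟩ : ∃ b, X.B = b + 1 := ⟨X.B - 1, by omega⟩
    obtain ⟨p, hp⟩ : ∃ p, X.P = p + 2 := ⟨X.P - 2, by omega⟩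
    rw [hDB, hb, hp]
    have e1 : (p + 2) * (b + 1) = (p + 2) * b + p + 2 := by ring
    have e2 : (p + 2) * (b + 1) - 1 - 1 = (p + 2) * b + p := by rw [e1]; omega
    rw [e2, Nat.mul_add_div (by omega), Nat.div_eq_of_lt (by omega), e1]
    have e3 : (p + 2 - 1) * (b + 1) = (p + 2) * b + p + 1 - b := by
      have : (p + 2 - 1) * (b + 1) + b = (p + 2) * b + p + 1 := by
        rw [show p + 2 - 1 = p + 1 by omega]; ring
      omega
    rw [e3]
    omega
  refine X.exists_seq c X.D X.B2 X.B2_ge (by omega) le_rfl (by simp [hc]) ?_ ?_ ?_ ?_ ?_ ?_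
  · intro t ht
    by_cases h0 : t = 0
    · subst h0
      right
      simp only [hc, if_true]
      rw [if_neg (by omega), if_neg (by omega)]
      simp
    · by_cases h1 : t + 1 = X.D
      · left
        simp only [hc]
        rw [if_neg (by omega), if_pos (by omega), if_neg h0, if_neg (by omega)]
        rw [show t = X.D - 1 by omega, hlast]
      · simp only [hc]
        rw [if_neg (by omega), if_neg (by omega), if_neg h0, if_neg (by omega)]
        have h2 := hdiv (t - 1)
        rw [show t - 1 + 1 = t by omega] at h2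
        have h3 := hle t
        have h4 := hle (t - 1)
        rw [Nat.add_sub_cancel]
        omega
  · simp only [hc]
    rw [if_neg (by omega), if_pos le_rfl]
  · intro t htD
    have h1 := X.sum_low t
    by_cases h0 : t = 0
    · subst h0
      have h2 : X.pen (0 / X.P) = 1 := by rw [Nat.zero_div, X.pen_zero]
      rw [h2] at h1
      simp only [hc, if_true]
      simp only [Nat.zero_div, mul_zero] at h1
      omega
    · by_cases h2 : X.D ≤ t
      · have h3 : t = X.D := by omega
        subst h3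
        have h4 : ∑ i, X.low i X.D = (X.P - 1) * X.B := by
          rw [← X.sum_D]
          exact Finset.sum_congr rfl fun i _ => X.low_D i
        simp only [hc]
        rw [if_neg h0, if_pos le_rfl, h4]
      · simp only [hc]
        rw [if_neg h0, if_neg h2]
        have h3 : (X.P - 1) * (t / X.P) + 1 ≤ t - (t - 1) / X.P := by
          obtain ⟨p, hp⟩ : ∃ p, X.P = p + 1 := ⟨X.P - 1, by omega⟩
          have h5 := Nat.div_add_mod t X.P
          have h6 := Nat.mod_lt t (show 0 < X.P by omega)
          have h7 : (t - 1) / X.P = if t % X.P = 0 then t / X.P - 1 else t / X.P := by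
            have h8 := Nat.succ_div (a := t - 1) (b := X.P)
            rw [show t - 1 + 1 = t by omega] at h8
            split_ifs with h9
            · rw [if_pos (Nat.dvd_of_mod_eq_zero h9)] at h8
              rw [h8, Nat.add_sub_cancel]
            · rw [if_neg (fun h => h9 (Nat.mod_eq_zero_of_dvd h))] at h8
              rw [h8, add_zero]
          have h10 : (X.P - 1) * (t / X.P) + t / X.P = X.P * (t / X.P) := by
            rw [hp]
            simp only [Nat.add_sub_cancel]
            ring
          rw [h7]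
          clear h7 h1
          generalize t / X.P = y at *
          generalize hz : X.P * y = z at *
          generalize hw : (X.P - 1) * y = w at *
          split_ifs with h9
          · have h11 : 1 ≤ y := by
              by_contra hcon
              have h12 : y = 0 := by omega
              rw [h12, mul_zero] at hz
              omega
            omega
          · omega
        omega
  · simp only [hc]
    rw [if_neg (by omega), if_pos le_rfl, if_neg (by omega), if_neg (by omega), hlast]
  · intro t ht1 htD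
    have hkp := X.rk0p
    have hDp := X.rDp
    have htD' : (t : ℝ) ≤ X.D := by exact_mod_cast htD
    have ht0 : (0 : ℝ) ≤ t := Nat.cast_nonneg _
    have hWp := X.rW
    have hB2 := X.B2_ge
    refine max_le ?_ ?_
    · change (2 * (X.W : ℝ) + 2) * ((((if X.D ≤ t then 1 else 0 : ℕ) : ℝ)) - t * (1 / X.D)) ≤ X.B2
      have h5 : (0 : ℝ) ≤ t * (1 / X.D) := by positivity
      split_ifs with h1
      · have h2 : t = X.D := by omega
        rw [h2, mul_one_div_cancel hDp.ne']
        push_cast
        linarith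
      · push_cast
        nlinarith
    · change -((X.D : ℝ) / ((X.k0 : ℝ) - 1) *
        ((((if X.D ≤ t then 1 else 0 : ℕ) : ℝ)) - t * (1 / X.D))) ≤ X.B2
      rw [alg hDp]
      unfold B2
      rw [div_le_div_iff_of_pos_right hkp]
      split_ifs with h1
      · push_cast
        have := X.rD
        linarith
      · have h2 : t + 1 ≤ X.D := by omega
        have h3 : (t : ℝ) + 1 ≤ X.D := by exact_mod_cast h2
        push_cast
        linarith
  · intro t ht1 htD
    have hDp := X.rDp
    have hPp := X.rP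
    have hB2 := X.B2_ge
    have htD' : (t : ℝ) ≤ X.D := by exact_mod_cast htD
    have key : (c t : ℝ) + ((if X.D ≤ t then 1 else 0 : ℕ) : ℝ) - t +
        t * (1 / X.P - 1 / X.D) ≤ 1 := by
      by_cases h2 : X.D ≤ t
      · have h3 : t = X.D := by omega
        subst h3
        simp only [hc]
        rw [if_neg (by omega), if_pos le_rfl, if_pos le_rfl]
        have e : (((X.P - 1) * X.B : ℕ) : ℝ) = X.D - X.B := by
          rw [Nat.cast_mul, Nat.cast_sub (by omega), Nat.cast_one, X.rB]
          ring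
        rw [e]
        have e2 : (X.D : ℝ) * (1 / X.P - 1 / X.D) = X.B - 1 := by
          rw [X.rB]
          have := X.rBp
          field_simp
        rw [e2]
        push_cast
        linarith
      · simp only [hc]
        rw [if_neg (by omega), if_neg h2, if_neg h2]
        have h4 : (t : ℝ) ≤ X.P * (((t - 1) / X.P : ℕ) : ℝ) + X.P := by
          have h5 : t ≤ X.P * ((t - 1) / X.P) + X.P := by
            have := Nat.div_add_mod (t - 1) X.P
            have := Nat.mod_lt (t - 1) (show 0 < X.P by omega)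
            omega
          exact_mod_cast h5
        have h6 : (t : ℝ) * (1 / X.P) ≤ (((t - 1) / X.P : ℕ) : ℝ) + 1 := by
          rw [mul_one_div, div_le_iff₀ (by linarith)]
          linarith
        have h7 : (0 : ℝ) ≤ (t : ℝ) * (1 / X.D) := by positivity
        rw [Nat.cast_sub (le_trans (hle _) (by omega))]
        push_cast
        linarith
    nlinarith

/-- If `pen u ≠ 0` for all `u`, every optimal sequence has the special model at position `k0`. -/
theorem opt_unsat (h : ∀ u, 1 ≤ X.pen u) {S : ℕ → Fin (X.N + 2)}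
    (hS : IsMaxOptimal X.F X.dem S) : S X.k0 = Fin.succ 0 := by
  obtain ⟨S', h1, h2⟩ := X.exists_one h
  exact X.special_of_dev ((hS.2 S' h1).trans h2)

/-- If `pen u = 0` for some `u`, no optimal sequence has the special model at position `k0`. -/
theorem opt_sat (h : ∃ u, X.pen u = 0) {S : ℕ → Fin (X.N + 2)}
    (hS : IsMaxOptimal X.F X.dem S) : S X.k0 ≠ Fin.succ 0 := by
  obtain ⟨S', h1, h2⟩ := X.exists_two
  exact X.special_ne_of_dev ((hS.2 S' h1).trans h2) h

end Par

end Pool.Agent.H116R3.JM
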