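import Pool.Agent.H116R3.JM.Red

set_option autoImplicit false

/-!
# The reduction is computable in polynomial time
-/

namespace Pool.Agent.H116R3.JM

open Pool.Agent.NPC
open Pool.Agent.H619R2.PM (F3 gg Small UPoly_gg Poly_gg)

variable {α : Type} [TEnc α]

@[fun_prop]
theorem poly_prod {l : α → List ℕ} (hl : NPC.Poly l) : NPC.Poly (fun a => (l a).prod) := by
  obtain ⟨r, hr⟩ := hl.sz_le
  refine (NPC.Poly.foldr (s := fun _ => 1) (F := fun _ x s => x * s) hl (NPC.Poly.const 1)
    (NPC.Poly.mul (NPC.Poly.fst (NPC.Poly.snd NPC.Poly.id)) (NPC.Poly.snd (NPC.Poly.snd NPC.Poly.id)))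
    (Polynomial.C 4 * r + Polynomial.C 1) ?_).congr fun a => ?_
  · intro a k hk
    have key : ∀ l : List ℕ, (l.foldr (fun x s => x * s) 1).size ≤ sz l := by
      intro l
      induction l with
      | nil => simp
      | cons x l ih =>
        rw [List.foldr_cons]
        set s := l.foldr (fun x s => x * s) 1
        have h1 := Nat.lt_size_self x
        have h2 := Nat.lt_size_self s
        have h3 : x * s < 2 ^ (x.size + s.size) := by
          rw [pow_add]
          exact Nat.mul_lt_mul'' h1 h2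
        have h4 := Nat.size_le.2 h3
        have h5 := size_le_sz x
        simp
        omega
    have h1 := sz_nat_le (((l a).drop k).foldr (fun x s => x * s) 1)
    have h2 := key ((l a).drop k)
    have h3 := NPC.Poly.sz_drop_le (l a) k
    have h4 := hr a
    simp only [Polynomial.eval_add, Polynomial.eval_mul, Polynomial.eval_C]
    omega
  · rfl

@[fun_prop]
theorem poly_gmod {g : α → Gd} (hg : NPC.Poly g) : NPC.Poly (fun a => gmod (g a)) := by
  unfold gmod
  exact poly_prod (NPC.Poly.map (F := fun _ c => Prod.fst c) hg (by fun_prop))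

@[fun_prop]
theorem poly_gbad {g : α → Gd} {u : α → ℕ} (hg : NPC.Poly g) (hu : NPC.Poly u) :
    NPC.Poly (fun a => gbad (g a) (u a)) := by
  unfold gbad
  fun_prop

/-- `gmodels` with a bound for the modulus -/
def gmodelsB (b : ℕ) (g : Gd) : List (ℕ × ℕ) :=
  (List.range (min (gmod g) b)).flatMap fun j =>
    if gbad g j = true then
      (if gbad g (j + 1) = true then [(gmod g, j + 1)] else [(gmod g, j + 1), (gmod g, j + 1)])
    else (if gbad g (j + 1) = true then [] else [(gmod g, j + 1)])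

theorem gmodelsB_eq {b : ℕ} {g : Gd} (h : gmod g ≤ b) : gmodelsB b g = gmodels g := by
  unfold gmodelsB gmodels
  rw [min_eq_left h]

theorem poly_gmodelsB {b : α → ℕ} {g : α → Gd} (hb : UPoly b) (hg : NPC.Poly g) :
    NPC.Poly (fun a => gmodelsB (b a) (g a)) := by
  have h1 : NPC.Poly (fun a => List.range (min (gmod (g a)) (b a))) :=
    UPoly.range (UPoly.of_le (NPC.Poly.min (poly_gmod hg) hb.toPoly) hb (fun a => min_le_right _ _))
  unfold gmodelsB
  refine NPC.Poly.flatMap (F := fun a j => if gbad (g a) j = true then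
      (if gbad (g a) (j + 1) = true then [(gmod (g a), j + 1)] else
        [(gmod (g a), j + 1), (gmod (g a), j + 1)])
    else (if gbad (g a) (j + 1) = true then [] else [(gmod (g a), j + 1)])) h1 ?_
  fun_prop

theorem UPoly_bd {n : α → ℕ} (hn : UPoly n) : UPoly (fun a => bd (n a)) := by
  have h : UPoly (fun a => n a + 2) := UPoly.add hn (UPoly.const 2)
  exact (UPoly.add (UPoly.mul (UPoly.const 4) (UPoly.mul h h)) (UPoly.const 1)).congr fun a => by
    simp only [bd, pow_two]

theorem poly_PL {M : α → ℕ} (hM : UPoly M) : NPC.Poly (fun a => PL (M a)) := by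
  unfold PL isP
  have h1 := hM.range
  refine NPC.Poly.filter (p := fun a p => decide (3 ≤ p) && (List.range (M a)).all
    (fun d => decide (d < 2) || (decide (p ≤ d) || !decide (p % d = 0)))) h1 ?_
  have h2 : NPC.Poly (fun p : α × ℕ => List.range (M p.1)) := h1.comp (NPC.Poly.fst NPC.Poly.id)
  refine NPC.Poly.and (by fun_prop) ?_
  exact NPC.Poly.all (p := fun (p : α × ℕ) d => decide (d < 2) || (decide (p.2 ≤ d) ||
    !decide (p.2 % d = 0))) h2 (by fun_prop)

theorem poly_qv {n v : α → ℕ} (hn : UPoly n) (hv : NPC.Poly v) :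
    NPC.Poly (fun a => qv (n a) (v a)) := by
  unfold qv
  exact NPC.Poly.getD (poly_PL (UPoly_bd hn)) hv (NPC.Poly.const 3)

@[fun_prop]
theorem poly_qvg {f : α → F3} {v : α → ℕ} (hf : NPC.Poly f) (hv : NPC.Poly v) :
    NPC.Poly (fun a => qv (gg (f a)) (v a)) :=
  poly_qv (UPoly.comp (n := gg) UPoly_gg hf) hv

theorem poly_fgads : NPC.Poly fgads := by
  unfold fgads gads
  have h1 : NPC.Poly (fun φ : F3 => List.range (gg φ + 1)) :=
    UPoly.range (UPoly.add UPoly_gg (UPoly.const 1))
  have h2 : NPC.Poly (fun φ : F3 => List.range (bd (gg φ))) := UPoly.range (UPoly_bd UPoly_gg)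
  have h3 : NPC.Poly (fun p : F3 × ℕ => List.range (bd (gg p.1))) :=
    h2.comp (NPC.Poly.fst NPC.Poly.id)
  refine NPC.Poly.cons (by fun_prop) (NPC.Poly.append ?_ ?_)
  · refine NPC.Poly.flatMap (F := fun (φ : F3) v => (List.range (bd (gg φ))).map
      fun r => [(qv (gg φ) v, r + 2)]) h1 ?_
    exact NPC.Poly.map (F := fun (p : F3 × ℕ) r => [(qv (gg p.1) p.2, r + 2)]) h3 (by fun_prop)
  · refine NPC.Poly.map (F := fun (φ : F3) (c : Lit ℕ × Lit ℕ × Lit ℕ) =>
      [(qv (gg φ) (gg φ), 1), (qv (gg φ) c.1.2, fr c.1.1), (qv (gg φ) c.2.1.2, fr c.2.1.1),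
        (qv (gg φ) c.2.2.2, fr c.2.2.1)]) NPC.Poly.id ?_
    unfold fr
    fun_prop

/-- the bound for the moduli of the gadgets -/
def bnd (φ : F3) : ℕ := bd (gg φ) * (bd (gg φ) * (bd (gg φ) * bd (gg φ)))

theorem UPoly_bnd : UPoly bnd := by
  have h := UPoly_bd UPoly_gg
  exact UPoly.mul h (UPoly.mul h (UPoly.mul h h))

theorem qv_le (n v : ℕ) : qv n v ≤ bd n := by
  unfold qv
  rw [List.getD_eq_getElem?_getD]
  by_cases h : v < (PL (bd n)).length
  · rw [List.getElem?_eq_getElem h]
    exact (mem_PL.1 (List.getElem_mem h)).1.le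
  · rw [List.getElem?_eq_none (by omega)]
    simp only [Option.getD_none]
    unfold bd
    have : 1 ≤ (n + 2) ^ 2 := Nat.one_le_pow _ _ (by omega)
    omega

theorem gmod_le {φ : F3} {g : Gd} (h : g ∈ fgads φ) : gmod g ≤ bnd φ := by
  have h0 : 1 ≤ bd (gg φ) := by unfold bd; omega
  have hq := qv_le (gg φ)
  have h2 : 1 ≤ bd (gg φ) * bd (gg φ) := Nat.mul_pos h0 h0
  have h3 : 1 ≤ bd (gg φ) * (bd (gg φ) * bd (gg φ)) := Nat.mul_pos h0 h2
  unfold fgads gads at h
  simp only [List.mem_cons, List.mem_append, List.mem_flatMap, List.mem_map, List.mem_range] at h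
  unfold bnd
  rcases h with rfl | ⟨v, _, r, _, rfl⟩ | ⟨c, _, rfl⟩
  · simp only [gmod, List.map_cons, List.map_nil, List.prod_cons, List.prod_nil, mul_one]
    exact (hq _).trans (Nat.le_mul_of_pos_right _ h3)
  · simp only [gmod, List.map_cons, List.map_nil, List.prod_cons, List.prod_nil, mul_one]
    exact (hq _).trans (Nat.le_mul_of_pos_right _ h3)
  · simp only [gmod, List.map_cons, List.map_nil, List.prod_cons, List.prod_nil, mul_one]
    exact Nat.mul_le_mul (hq _) (Nat.mul_le_mul (hq _) (Nat.mul_le_mul (hq _) (hq _)))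

theorem poly_models : NPC.Poly (fun φ : F3 => models (fgads φ)) := by
  have h1 : NPC.Poly (fun φ : F3 => (fgads φ).flatMap (fun g => gmodelsB (bnd φ) g)) :=
    NPC.Poly.flatMap (F := fun (φ : F3) g => gmodelsB (bnd φ) g) poly_fgads
      (poly_gmodelsB (UPoly.comp (n := bnd) UPoly_bnd (NPC.Poly.fst NPC.Poly.id))
        (NPC.Poly.snd NPC.Poly.id))
  refine h1.congr fun φ => ?_
  unfold models
  have key : ∀ gs : List Gd, (∀ g ∈ gs, gmod g ≤ bnd φ) →
      gs.flatMap (fun g => gmodelsB (bnd φ) g) = gs.flatMap gmodels := by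
    intro gs
    induction gs with
    | nil => intro _; rfl
    | cons g gs ih =>
      intro h
      rw [List.flatMap_cons, List.flatMap_cons, gmodelsB_eq (h g List.mem_cons_self),
        ih fun g' hg' => h g' (List.mem_cons_of_mem _ hg')]
  exact key _ fun g hg => gmod_le hg

theorem poly_instW {P W : α → ℕ} {ms : α → List (ℕ × ℕ)} (hP : NPC.Poly P) (hW : NPC.Poly W)
    (hms : NPC.Poly ms) : NPC.Poly (fun a => instW (P a) (W a) (ms a)) := by
  unfold instW entry
  fun_prop

theorem poly_P : NPC.Poly (fun φ : F3 => (fgads φ).length + 1) :=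
  NPC.Poly.add (NPC.Poly.length poly_fgads) (NPC.Poly.const 1)

theorem poly_W : NPC.Poly (fun φ : F3 => ((fgads φ).length + 1) * ((fgads φ).map gmod).prod) :=
  NPC.Poly.mul poly_P (poly_prod (NPC.Poly.map (F := fun _ g => gmod g) poly_fgads (by fun_prop)))

theorem poly_inst : NPC.Poly (fun φ : F3 => inst (fgads φ)) := by
  unfold inst
  exact poly_instW poly_P poly_W poly_models

theorem poly_qpos : NPC.Poly (fun φ : F3 => qpos (fgads φ)) := by
  unfold qpos
  exact NPC.Poly.mul poly_W (NPC.Poly.add (NPC.Poly.mul (NPC.Poly.const 2) poly_W)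
    (NPC.Poly.const 1))

end Pool.Agent.H116R3.JM
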