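import Pool.Agent.H116R3.JM.Gad
import Pool.Agent.H619R2.PM.Final

set_option autoImplicit false

/-!
# The reduction from 3SAT
-/

namespace Pool.Agent.H116R3.JM

open Finset Pool.Agent.NPC
open Pool.Agent.H619R2.PM (F3 gg Small)

/-- the residue for a false literal -/
def fr (b : Bool) : ℕ := if b = true then 0 else 1

/-- The gadgets of a formula with variables `0, …, n-1`, with the moduli `q`. -/
def gads (n b : ℕ) (q : ℕ → ℕ) (φ : F3) : List Gd :=
  [(q n, 0)] :: (((List.range (n + 1)).flatMap fun v => (List.range b).map fun r => [(q v, r + 2)]) ++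
    φ.map fun c => [(q n, 1), (q c.1.2, fr c.1.1), (q c.2.1.2, fr c.2.1.1), (q c.2.2.2, fr c.2.2.1)])

theorem pens_eq_zero {gs : List Gd} {u : ℕ} : pens gs u = 0 ↔ ∀ g ∈ gs, gbad g u = false := by
  unfold pens
  rw [List.sum_eq_zero_iff]
  simp only [List.mem_map, forall_exists_index, and_imp, forall_apply_eq_imp_iff₂]
  refine forall₂_congr fun g _ => ?_
  unfold gpen
  split_ifs with h
  · simp [h]
  · simp [h]

theorem ok_gads {n b : ℕ} {q : ℕ → ℕ} (φ : F3) (hq : ∀ v, 0 < q v) : Ok (gads n b q φ) where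
  ne := by simp [gads]
  pos g hg := by
    unfold gads at hg
    simp only [List.mem_cons, List.mem_append, List.mem_flatMap, List.mem_map, List.mem_range] at hg
    rcases hg with rfl | ⟨v, _, r, _, rfl⟩ | ⟨c, _, rfl⟩
    · simp [gmod, hq n]
    · simp [gmod, hq v]
    · simp [gmod, hq n, hq c.1.2, hq c.2.1.2, hq c.2.2.2]
  one := by
    have h : pens (((List.range (n + 1)).flatMap fun v =>
        (List.range b).map fun r => [(q v, r + 2)]) ++
        φ.map fun c => [(q n, 1), (q c.1.2, fr c.1.1), (q c.2.1.2, fr c.2.1.1),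
          (q c.2.2.2, fr c.2.2.1)]) 0 = 0 := by
      rw [pens_eq_zero]
      intro g hg
      simp only [List.mem_append, List.mem_flatMap, List.mem_map, List.mem_range] at hg
      rcases hg with ⟨v, _, r, _, rfl⟩ | ⟨c, _, rfl⟩
      · simp [gbad]
      · simp [gbad]
    unfold pens at h ⊢
    unfold gads
    rw [List.map_cons, List.sum_cons, h]
    simp [gpen, gbad]

theorem gads_spec {n b : ℕ} {q : ℕ → ℕ} {φ : F3} (hφ : ∀ c ∈ φ, c.1.2 < n ∧ c.2.1.2 < n ∧ c.2.2.2 < n)
    (hq3 : ∀ v ≤ n, 3 ≤ q v) (hqb : ∀ v ≤ n, q v ≤ b)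
    (hco : ∀ v ≤ n, ∀ w ≤ n, v ≠ w → (q v).Coprime (q w)) :
    SAT3 φ ↔ ∃ u, pens (gads n b q φ) u = 0 := by
  constructor
  · rintro ⟨τ, hτ⟩
    obtain ⟨u, hu⟩ := Nat.chineseRemainderOfFinset
      (fun v => if v = n then 1 else if τ v = true then 1 else 0) q (Finset.range (n + 1))
      (fun v hv => by
        have := hq3 v (by rw [Finset.mem_range] at hv; omega)
        omega)
      (fun v hv w hw hvw => by
        rw [Finset.mem_coe, Finset.mem_range] at hv hw
        exact hco v (by omega) w (by omega) hvw)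
    have hu' : ∀ v ≤ n, u % q v = (if v = n then 1 else if τ v = true then 1 else 0) := by
      intro v hv
      have h1 := hu v (Finset.mem_range.2 (by omega))
      have h2 := hq3 v hv
      have h3 : (if v = n then 1 else if τ v = true then 1 else 0) < q v := by
        split_ifs <;> omega
      have h4 := h1
      unfold Nat.ModEq at h4
      rwa [Nat.mod_eq_of_lt h3] at h4
    refine ⟨u, ?_⟩
    rw [pens_eq_zero]
    intro g hg
    unfold gads at hg
    simp only [List.mem_cons, List.mem_append, List.mem_flatMap, List.mem_map, List.mem_range] at hg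
    rcases hg with rfl | ⟨v, hv, r, _, rfl⟩ | ⟨c, hc, rfl⟩
    · have := hu' n le_rfl
      simp only [if_true] at this
      simp [gbad, this]
    · have := hu' v (by omega)
      simp only [gbad, List.all_cons, List.all_nil, Bool.and_true, decide_eq_false_iff_not]
      split_ifs at this <;> omega
    · obtain ⟨h1, h2, h3⟩ := hφ c hc
      have e1 := hu' _ h1.le
      have e2 := hu' _ h2.le
      have e3 := hu' _ h3.le
      rw [if_neg (by omega)] at e1 e2 e3
      have h4 := hτ c hc
      rw [Bool.eq_false_iff]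
      intro h5
      simp only [gbad, List.all_cons, List.all_nil, Bool.and_true, Bool.and_eq_true,
        decide_eq_true_eq, e1, e2, e3] at h5
      obtain ⟨_, h5, h6, h7⟩ := h5
      unfold fr at h5 h6 h7
      rcases h4 with h4 | h4 | h4
      · rw [h4] at h5
        split_ifs at h5
      · rw [h4] at h6
        split_ifs at h6
      · rw [h4] at h7
        split_ifs at h7
  · rintro ⟨u, hu⟩
    rw [pens_eq_zero] at hu
    have h01 : ∀ v ≤ n, u % q v = 0 ∨ u % q v = 1 := by
      intro v hv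
      by_contra hcon
      push Not at hcon
      have h1 := hqb v hv
      have h2 := Nat.mod_lt u (show 0 < q v by have := hq3 v hv; omega)
      have h3 := hu [(q v, (u % q v - 2) + 2)] (by
        unfold gads
        simp only [List.mem_cons, List.mem_append, List.mem_flatMap, List.mem_map, List.mem_range]
        exact Or.inr (Or.inl ⟨v, by omega, u % q v - 2, by omega, rfl⟩))
      simp only [gbad, List.all_cons, List.all_nil, Bool.and_true, decide_eq_false_iff_not] at h3
      omega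
    have hz : u % q n = 1 := by
      have h1 := hu [(q n, 0)] (by
        unfold gads
        exact List.mem_cons_self)
      simp only [gbad, List.all_cons, List.all_nil, Bool.and_true, decide_eq_false_iff_not] at h1
      rcases h01 n le_rfl with h | h
      · exact absurd h h1
      · exact h
    refine ⟨fun v => decide (u % q v = 1), fun c hc => ?_⟩
    obtain ⟨h1, h2, h3⟩ := hφ c hc
    have h4 := hu [(q n, 1), (q c.1.2, fr c.1.1), (q c.2.1.2, fr c.2.1.1), (q c.2.2.2, fr c.2.2.1)] (by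
      unfold gads
      simp only [List.mem_cons, List.mem_append, List.mem_map]
      exact Or.inr (Or.inr ⟨c, hc, rfl⟩))
    by_contra hcon
    push Not at hcon
    obtain ⟨k1, k2, k3⟩ := hcon
    rw [Bool.eq_false_iff] at h4
    apply h4
    have aux : ∀ (a : ℕ) (b : Bool), (a = 0 ∨ a = 1) → decide (a = 1) ≠ b → a = fr b := by
      rintro a b (rfl | rfl) h
      · cases b
        · simp at h
        · rfl
      · cases b
        · rfl
        · simp at h
    simp only [gbad, List.all_cons, List.all_nil, Bool.and_true, Bool.and_eq_true,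
      decide_eq_true_eq]
    exact ⟨hz, aux _ _ (h01 _ h1.le) k1, aux _ _ (h01 _ h2.le) k2, aux _ _ (h01 _ h3.le) k3⟩

/-! ### The moduli -/

/-- odd primes smaller than `M`, by trial division -/
def isP (M p : ℕ) : Bool :=
  decide (3 ≤ p) && (List.range M).all (fun d => decide (d < 2) || (decide (p ≤ d) ||
    !decide (p % d = 0)))

def PL (M : ℕ) : List ℕ := (List.range M).filter (isP M)

theorem isP_iff {M p : ℕ} (h : p < M) : isP M p = true ↔ 3 ≤ p ∧ p.Prime := by
  unfold isP
  rw [Bool.and_eq_true, decide_eq_true_eq, List.all_eq_true]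
  refine and_congr_right fun h3 => ?_
  rw [Nat.prime_def_lt']
  constructor
  · intro h1
    refine ⟨by omega, fun m hm hmp hd => ?_⟩
    have h2 := h1 m (List.mem_range.2 (by omega))
    rw [Bool.or_eq_true, Bool.or_eq_true, decide_eq_true_eq, decide_eq_true_eq, Bool.not_eq_true',
      decide_eq_false_iff_not] at h2
    rcases h2 with h2 | h2 | h2
    · omega
    · omega
    · exact h2 (Nat.mod_eq_zero_of_dvd hd)
  · rintro ⟨_, h1⟩ d _
    rw [Bool.or_eq_true, Bool.or_eq_true, decide_eq_true_eq, decide_eq_true_eq, Bool.not_eq_true',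
      decide_eq_false_iff_not]
    by_cases h2 : d < 2
    · exact Or.inl h2
    · by_cases h4 : p ≤ d
      · exact Or.inr (Or.inl h4)
      · exact Or.inr (Or.inr fun h5 => h1 d (by omega) (by omega) (Nat.dvd_of_mod_eq_zero h5))

theorem mem_PL {M p : ℕ} : p ∈ PL M ↔ p < M ∧ 3 ≤ p ∧ p.Prime := by
  unfold PL
  rw [List.mem_filter, List.mem_range]
  exact and_congr_right fun h => isP_iff h

theorem PL_nodup (M : ℕ) : (PL M).Nodup := List.Nodup.filter _ List.nodup_range

theorem PL_length (N : ℕ) : Nat.primeCounting N ≤ (PL (N + 1)).length + 1 := by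
  classical
  rw [← Nat.primesLE_card_eq_primeCounting]
  have h1 : Nat.primesLE N ⊆ insert 2 (PL (N + 1)).toFinset := by
    intro p hp
    rw [Nat.mem_primesLE] at hp
    rw [Finset.mem_insert, List.mem_toFinset, mem_PL]
    by_cases h2 : p = 2
    · exact Or.inl h2
    · have := hp.2.two_le
      exact Or.inr ⟨by omega, by omega, hp.2⟩
  refine (Finset.card_le_card h1).trans ((Finset.card_insert_le _ _).trans ?_)
  exact Nat.succ_le_succ (List.toFinset_card_le _)

theorem lcmUpto_le (n : ℕ) : Nat.lcmUpto n ≤ n ^ (Nat.primeCounting n) := by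
  rw [Nat.lcmUpto_eq_prod_pow_log, ← Nat.primesLE_card_eq_primeCounting]
  refine Finset.prod_le_pow_card _ _ _ fun p hp => ?_
  rw [Nat.mem_primesLE] at hp
  exact Nat.pow_log_le_self p (by have := hp.2.two_le; omega)

theorem many_primes (m : ℕ) (hm : 1 ≤ m) : m ≤ Nat.primeCounting (4 * m ^ 2) := by
  by_contra hcon
  push Not at hcon
  have h1 := Chebyshev.two_pow_le_mul_lcmUpto (4 * m ^ 2)
  have h2 := lcmUpto_le (4 * m ^ 2)
  have hpos : 1 ≤ 4 * m ^ 2 := by
    have : 0 < m ^ 2 := by positivity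
    omega
  have h3 : (4 * m ^ 2) ^ (Nat.primeCounting (4 * m ^ 2)) ≤ (4 * m ^ 2 + 1) ^ (m - 1) :=
    (Nat.pow_le_pow_left (Nat.le_succ _) _).trans (Nat.pow_le_pow_right (Nat.succ_pos _) (by omega))
  have h4 : 2 ^ (4 * m ^ 2) ≤ (4 * m ^ 2 + 1) ^ m := by
    calc 2 ^ (4 * m ^ 2) ≤ (4 * m ^ 2 + 1) * Nat.lcmUpto (4 * m ^ 2) := h1
      _ ≤ (4 * m ^ 2 + 1) * (4 * m ^ 2 + 1) ^ (m - 1) := Nat.mul_le_mul_left _ (h2.trans h3)
      _ = (4 * m ^ 2 + 1) ^ m := by
        rw [← Nat.pow_succ']
        congr 1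
        omega
  have h5 : 4 * m ^ 2 + 1 < 2 ^ (4 * m) := by
    have h6 : m + 1 ≤ 2 ^ m := Nat.lt_two_pow_self
    have h7 : (m + 1) ^ 2 ≤ (2 ^ m) ^ 2 := Nat.pow_le_pow_left h6 2
    have h8 : 2 ^ 2 ≤ (2 ^ m) ^ 2 := Nat.pow_le_pow_left (by omega) 2
    have h9 : 2 ^ (4 * m) = (2 ^ m) ^ 2 * (2 ^ m) ^ 2 := by ring
    rw [h9]
    have h10 : 2 ^ 2 * (m + 1) ^ 2 ≤ (2 ^ m) ^ 2 * (2 ^ m) ^ 2 := Nat.mul_le_mul h8 h7
    have h11 : 4 * m ^ 2 + 1 < 2 ^ 2 * (m + 1) ^ 2 := by nlinarith
    omega
  have h6 : (4 * m ^ 2 + 1) ^ m < (2 ^ (4 * m)) ^ m := Nat.pow_lt_pow_left h5 (by omega)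
  have h7 : (2 ^ (4 * m)) ^ m = 2 ^ (4 * m ^ 2) := by
    rw [← pow_mul]
    congr 1
    ring
  omega

/-- the bound for the moduli -/
def bd (n : ℕ) : ℕ := 4 * (n + 2) ^ 2 + 1

/-- the moduli -/
def qv (n v : ℕ) : ℕ := (PL (bd n)).getD v 3

theorem qv_mem {n v : ℕ} (h : v ≤ n) : ∃ h : v < (PL (bd n)).length, qv n v = (PL (bd n))[v] := by
  have h1 := many_primes (n + 2) (by omega)
  have h2 := PL_length (4 * (n + 2) ^ 2)
  have h3 : v < (PL (bd n)).length := by
    unfold bd
    omega
  refine ⟨h3, ?_⟩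
  unfold qv
  rw [List.getD_eq_getElem?_getD, List.getElem?_eq_getElem h3]
  rfl

theorem qv_spec {n v : ℕ} (h : v ≤ n) : qv n v < bd n ∧ 3 ≤ qv n v ∧ (qv n v).Prime := by
  obtain ⟨h1, h2⟩ := qv_mem h
  rw [h2]
  exact mem_PL.1 (List.getElem_mem h1)

theorem qv_pos (n v : ℕ) : 0 < qv n v := by
  unfold qv
  rw [List.getD_eq_getElem?_getD]
  by_cases h : v < (PL (bd n)).length
  · rw [List.getElem?_eq_getElem h]
    have := (mem_PL.1 (List.getElem_mem h)).2.1
    simp only [Option.getD_some]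
    omega
  · rw [List.getElem?_eq_none (by omega)]
    simp

theorem qv_coprime {n v w : ℕ} (hv : v ≤ n) (hw : w ≤ n) (h : v ≠ w) :
    (qv n v).Coprime (qv n w) := by
  rw [Nat.coprime_primes (qv_spec hv).2.2 (qv_spec hw).2.2]
  obtain ⟨h1, h2⟩ := qv_mem hv
  obtain ⟨h3, h4⟩ := qv_mem hw
  rw [h2, h4]
  intro h5
  exact h ((PL_nodup _).getElem_inj_iff.1 h5)

/-- the gadgets of a formula -/
def fgads (φ : F3) : List Gd := gads (gg φ) (bd (gg φ)) (qv (gg φ)) φ

theorem ok_fgads (φ : F3) : Ok (fgads φ) := ok_gads φ (qv_pos _)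

theorem fgads_spec {φ : F3} (hφ : Small φ) : SAT3 φ ↔ ∃ u, pens (fgads φ) u = 0 :=
  gads_spec hφ (fun _ hv => (qv_spec hv).2.1) (fun _ hv => (qv_spec hv).1.le)
    (fun _ hv _ hw h => qv_coprime hv hw h)

end Pool.Agent.H116R3.JM
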