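import Mathlib

set_option autoImplicit false

/-!
# Schedules with prescribed totals above given lower bounds
-/

namespace Pool.Agent.H116R3.JM

open Finset

/-- the number of occurrences of `some i` among `σ 1, …, σ t` -/
def cnt {N : ℕ} (σ : ℕ → Option (Fin N)) (i : Fin N) (t : ℕ) : ℕ :=
  ((Finset.Icc 1 t).filter (fun j => σ j = some i)).card

/-- the number of occurrences of `some i` among `σ (a+1), …, σ t` -/
def cntF {N : ℕ} (σ : ℕ → Option (Fin N)) (i : Fin N) (a t : ℕ) : ℕ :=
  ((Finset.Ioc a t).filter (fun j => σ j = some i)).card

theorem cntF_zero {N : ℕ} (σ : ℕ → Option (Fin N)) (i : Fin N) (t : ℕ) :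
    cntF σ i 0 t = cnt σ i t := rfl

theorem cntF_self {N : ℕ} (σ : ℕ → Option (Fin N)) (i : Fin N) (t : ℕ) : cntF σ i t t = 0 := by
  simp [cntF]

theorem cntF_head {N : ℕ} (σ : ℕ → Option (Fin N)) (i : Fin N) {a t : ℕ} (h : a < t) :
    cntF σ i a t = (if σ (a + 1) = some i then 1 else 0) + cntF σ i (a + 1) t := by
  unfold cntF
  have h1 : Finset.Ioc a t = insert (a + 1) (Finset.Ioc (a + 1) t) := by
    ext x
    simp only [mem_Ioc, mem_insert]
    omega
  rw [h1, Finset.filter_insert]
  split_ifs with h2
  · rw [Finset.card_insert_of_notMem (by simp)]
    omega
  · omega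

theorem cntF_congr {N : ℕ} {σ τ : ℕ → Option (Fin N)} (i : Fin N) {a t : ℕ}
    (h : ∀ s, a < s → s ≤ t → σ s = τ s) : cntF σ i a t = cntF τ i a t := by
  unfold cntF
  congr 1
  apply Finset.filter_congr
  intro x hx
  rw [mem_Ioc] at hx
  rw [h x hx.1 hx.2]

/-- A schedule with total `c t` at time `t` above the lower bounds `l i t`. -/
theorem exists_sched {N D : ℕ} (l : Fin N → ℕ → ℕ) (c : ℕ → ℕ) (d : Fin N → ℕ)
    (hmono : ∀ i t, l i t ≤ l i (t + 1)) (hc0 : c 0 = 0)
    (hstep : ∀ t < D, c (t + 1) = c t ∨ c (t + 1) = c t + 1)
    (hlD : ∀ i, l i D ≤ d i) (hcD : ∑ i, d i = c D) (hle : ∀ t ≤ D, ∑ i, l i t ≤ c t) :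
    ∃ σ : ℕ → Option (Fin N), (∀ t < D, σ (t + 1) ≠ none ↔ c (t + 1) = c t + 1) ∧
      (∀ t ≤ D, ∀ i, l i t ≤ cnt σ i t) ∧ ∀ i, cnt σ i D = d i := by
  have key : ∀ m ≤ D, ∃ (x : Fin N → ℕ) (σ : ℕ → Option (Fin N)), ∑ i, x i = c (D - m) ∧
      (∀ t, D - m ≤ t → t < D → (σ (t + 1) ≠ none ↔ c (t + 1) = c t + 1)) ∧
      (∀ t, D - m ≤ t → t ≤ D → ∀ i, l i t ≤ x i + cntF σ i (D - m) t) ∧
      ∀ i, x i + cntF σ i (D - m) D = d i := by
    intro m
    induction m with
    | zero =>
      intro _
      refine ⟨d, fun _ => none, by simpa using hcD, ?_, ?_, ?_⟩
      · intro t h1 h2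
        omega
      · intro t h1 h2 i
        have : t = D := by omega
        subst this
        exact le_trans (hlD i) (Nat.le_add_right _ _)
      · intro i
        simp [cntF_self]
    | succ m ih =>
      intro hm
      obtain ⟨x, σ, h1, h2, h3, h4⟩ := ih (by omega)
      set t0 := D - (m + 1) with ht0
      have e : D - m = t0 + 1 := by omega
      rw [e] at h1 h2 h3 h4
      have ht0D : t0 < D := by omega
      rcases hstep t0 ht0D with hs | hs
      · -- no job in this slot
        refine ⟨x, Function.update σ (t0 + 1) none, by rw [h1, hs], ?_, ?_, ?_⟩
        · intro t ha hb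
          by_cases hta : t = t0
          · subst hta
            simp [hs]
          · rw [Function.update_of_ne (by omega)]
            exact h2 t (by omega) hb
        · intro t ha hb i
          by_cases hta : t = t0
          · subst hta
            rw [cntF_self]
            have := h3 (t0 + 1) le_rfl (by omega) i
            rw [cntF_self] at this
            exact le_trans (hmono i t0) this
          · rw [cntF_head _ _ (by omega)]
            rw [Function.update_self]
            rw [cntF_congr (τ := σ) i (fun s h5 h6 => Function.update_of_ne (by omega) _ _)]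
            have := h3 t (by omega) hb i
            simpa using this
        · intro i
          rw [cntF_head _ _ (by omega)]
          rw [Function.update_self]
          rw [cntF_congr (τ := σ) i (fun s h5 h6 => Function.update_of_ne (by omega) _ _)]
          have := h4 i
          simpa using this
      · -- some job with slack
        have hex : ∃ i, l i t0 < x i := by
          by_contra hne
          push Not at hne
          have h5 : ∑ i, x i ≤ ∑ i, l i t0 := Finset.sum_le_sum fun i _ => hne i
          have h6 := hle t0 (by omega)
          omega
        obtain ⟨i0, hi0⟩ := hex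
        refine ⟨Function.update x i0 (x i0 - 1), Function.update σ (t0 + 1) (some i0),
          ?_, ?_, ?_, ?_⟩
        · have h5 : ∑ i, Function.update x i0 (x i0 - 1) i + 1 = ∑ i, x i := by
            rw [← Finset.add_sum_erase univ _ (mem_univ i0),
              ← Finset.add_sum_erase univ (fun i => x i) (mem_univ i0), Function.update_self]
            have h6 : ∑ i ∈ univ.erase i0, Function.update x i0 (x i0 - 1) i =
                ∑ i ∈ univ.erase i0, x i := by
              refine Finset.sum_congr rfl fun i hi => ?_
              rw [Function.update_of_ne (Finset.ne_of_mem_erase hi)]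
            rw [h6]
            omega
          omega
        · intro t ha hb
          by_cases hta : t = t0
          · subst hta
            simp [hs]
          · rw [Function.update_of_ne (by omega)]
            exact h2 t (by omega) hb
        · intro t ha hb i
          by_cases hta : t = t0
          · subst hta
            rw [cntF_self]
            by_cases hi : i = i0
            · subst hi
              rw [Function.update_self]
              omega
            · rw [Function.update_of_ne hi]
              have := h3 (t0 + 1) le_rfl (by omega) i
              rw [cntF_self] at this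
              exact le_trans (hmono i t0) this
          · rw [cntF_head _ _ (by omega)]
            rw [Function.update_self]
            rw [cntF_congr (τ := σ) i (fun s h5 h6 => Function.update_of_ne (by omega) _ _)]
            have := h3 t (by omega) hb i
            by_cases hi : i = i0
            · subst hi
              rw [Function.update_self]
              simp only [if_true]
              omega
            · rw [Function.update_of_ne hi, if_neg (by simpa using Ne.symm hi)]
              omega
        · intro i
          rw [cntF_head _ _ (by omega)]
          rw [Function.update_self]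
          rw [cntF_congr (τ := σ) i (fun s h5 h6 => Function.update_of_ne (by omega) _ _)]
          have := h4 i
          by_cases hi : i = i0
          · subst hi
            rw [Function.update_self]
            simp only [if_true]
            omega
          · rw [Function.update_of_ne hi, if_neg (by simpa using Ne.symm hi)]
            omega
  obtain ⟨x, σ, h1, h2, h3, h4⟩ := key D le_rfl
  rw [Nat.sub_self] at h1 h2 h3 h4
  rw [hc0] at h1
  have hx : ∀ i, x i = 0 := fun i => by
    have := Finset.sum_eq_zero_iff.1 h1 i (mem_univ i)
    exact this
  refine ⟨σ, fun t ht => h2 t (Nat.zero_le _) ht, ?_, ?_⟩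
  · intro t ht i
    have := h3 t (Nat.zero_le _) ht i
    rw [hx i, zero_add, cntF_zero] at this
    exact this
  · intro i
    have := h4 i
    rw [hx i, zero_add, cntF_zero] at this
    exact this

end Pool.Agent.H116R3.JM
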